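import Pool.Agent.Helper878.ERW.Main

set_option autoImplicit false

open MeasureTheory Filter Topology
open scoped BigOperators ENNReal

/-!
The excited random walk of `Pool.Agent.Helper878.ERW.Main` (total drift one, not recurrent), driven by
uniform variables indexed by time, as in the frozen statement `S19122`.
-/

namespace Pool.Agent.W846.ERW

open Pool.H878.ERW

/-- the state (position, numbers of previous departures) of the walk driven by `u` -/
noncomputable def st (w : ℤ → ℕ → ℝ) (u : ℕ → ℝ) : ℕ → ℤ × (ℤ → ℕ)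
  | 0 => (0, fun _ => 0)
  | (n + 1) =>
    (if u n < w (st w u n).1 ((st w u n).2 (st w u n).1 + 1)
      then (st w u n).1 + 1 else (st w u n).1 - 1,
     Function.update (st w u n).2 (st w u n).1 ((st w u n).2 (st w u n).1 + 1))

theorem st_snd (w : ℤ → ℕ → ℝ) (u : ℕ → ℝ) (n : ℕ) (y : ℤ) :
    (st w u n).2 y = ((Finset.range n).filter (fun m => (st w u m).1 = y)).card := by
  induction n with
  | zero => simp [st]
  | succ n ih =>
    rw [Finset.range_add_one, Finset.filter_insert]
    by_cases h : (st w u n).1 = y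
    · rw [if_pos h, Finset.card_insert_of_notMem (by simp), ← ih]
      show Function.update (st w u n).2 (st w u n).1 ((st w u n).2 (st w u n).1 + 1) y = _
      rw [h, Function.update_self]
    · rw [if_neg h, ← ih]
      show Function.update (st w u n).2 (st w u n).1 ((st w u n).2 (st w u n).1 + 1) y = _
      rw [Function.update_of_ne (Ne.symm h)]

theorem st_visits (w : ℤ → ℕ → ℝ) (u : ℕ → ℝ) (n : ℕ) :
    (st w u n).2 (st w u n).1 + 1 = visits (fun m => (st w u m).1) n := by
  rw [st_snd]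
  unfold visits
  rw [Finset.range_add_one, Finset.filter_insert, if_pos rfl,
    Finset.card_insert_of_notMem (by simp)]

theorem st_step (w : ℤ → ℕ → ℝ) (u : ℕ → ℝ) (n : ℕ) :
    (st w u (n + 1)).1 =
      if u n < w (st w u n).1 (visits (fun m => (st w u m).1) n)
      then (st w u n).1 + 1 else (st w u n).1 - 1 := by
  rw [← st_visits]
  rfl

theorem st_event (w : ℤ → ℕ → ℝ) (u : ℕ → ℝ) (p : ℕ → ℤ) (n : ℕ) :
    (∀ j ≤ n, (st w u j).1 = p j) ↔
      (p 0 = 0 ∧ ∀ j < n, u j ∈ e1B w p j) := by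
  induction n with
  | zero =>
    constructor
    · intro h
      exact ⟨(h 0 le_rfl).symm, fun j hj => absurd hj (Nat.not_lt_zero j)⟩
    · rintro ⟨h, -⟩ j hj
      obtain rfl : j = 0 := by omega
      exact h.symm
  | succ n ih =>
    have h1 : (∀ j ≤ n + 1, (st w u j).1 = p j) ↔
        ((∀ j ≤ n, (st w u j).1 = p j) ∧ (st w u (n + 1)).1 = p (n + 1)) := by
      constructor
      · intro h
        exact ⟨fun j hj => h j (by omega), h (n + 1) le_rfl⟩
      · rintro ⟨h, h'⟩ j hj
        rcases Nat.lt_or_ge j (n + 1) with h2 | h2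
        · exact h j (by omega)
        · obtain rfl : j = n + 1 := by omega
          exact h'
    have h2 : (∀ j < n + 1, u j ∈ e1B w p j) ↔
        ((∀ j < n, u j ∈ e1B w p j) ∧ u n ∈ e1B w p n) := by
      constructor
      · intro h
        exact ⟨fun j hj => h j (by omega), h n (by omega)⟩
      · rintro ⟨h, h'⟩ j hj
        rcases Nat.lt_or_ge j n with h2 | h2
        · exact h j h2
        · obtain rfl : j = n := by omega
          exact h'
    rw [h1, h2, ← and_assoc, ← ih]
    refine and_congr_right fun h => ?_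
    rw [st_step, e1visits_congr (p := fun m => (st w u m).1) h, h n le_rfl]
    unfold e1B
    rw [Set.mem_setOf_eq]
    by_cases h3 : u n < w (p n) (visits p n)
    · simp only [h3, if_true, true_and, not_true_eq_false, false_and, or_false]
      exact eq_comm
    · simp only [h3, if_false, false_and, not_false_eq_true, true_and, false_or]
      exact eq_comm

/-- the product measure -/
noncomputable def nu : Measure (ℕ → ℝ) := Measure.infinitePi (fun _ : ℕ => e1U)

instance : IsProbabilityMeasure nu := by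
  unfold nu; infer_instance

theorem inner {w : ℤ → ℕ → ℝ} (hw : ∀ x i, w x i ∈ Set.Icc (0 : ℝ) 1) (p : ℕ → ℤ) (n : ℕ) :
    nu {u | ∀ j < n, u j ∈ e1B w p j} =
      ∏ j ∈ Finset.range n, ENNReal.ofReal (stepProb w p j) := by
  classical
  have e : {u : ℕ → ℝ | ∀ j < n, u j ∈ e1B w p j} =
      Set.pi (Finset.range n : Finset ℕ) (fun j => e1B w p j) := by
    ext u
    simp [Set.mem_pi]
  rw [e]
  unfold nu
  rw [Measure.infinitePi_pi]
  · apply Finset.prod_congr rfl
    intro j hj
    rw [← e1B_prob hw]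
  · intro i _
    exact e1B_meas w p i

theorem E_meas {Ω : Type} [MeasurableSpace Ω] (e : Ω → ℤ → ℕ → ℝ) (he : Measurable e)
    (p : ℕ → ℤ) (n : ℕ) :
    MeasurableSet {z : Ω × (ℕ → ℝ) | ∀ j ≤ n, (st (e z.1) z.2 j).1 = p j} := by
  have h0 : {z : Ω × (ℕ → ℝ) | ∀ j ≤ n, (st (e z.1) z.2 j).1 = p j} =
      {z | p 0 = 0 ∧ ∀ j < n, z.2 j ∈ e1B (e z.1) p j} := by
    ext z
    exact st_event _ _ _ _
  rw [h0]
  have hz : ∀ i, Measurable (fun z : Ω × (ℕ → ℝ) => z.2 i) := fun i =>
    (measurable_pi_apply i).comp measurable_snd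
  have hw : ∀ x i, Measurable (fun z : Ω × (ℕ → ℝ) => e z.1 x i) := fun x i =>
    (measurable_pi_apply i).comp ((measurable_pi_apply x).comp (he.comp measurable_fst))
  have hj : ∀ j, MeasurableSet {z : Ω × (ℕ → ℝ) | z.2 j ∈ e1B (e z.1) p j} := by
    intro j
    have h1 : MeasurableSet {z : Ω × (ℕ → ℝ) |
        z.2 j < e z.1 (p j) (visits p j)} := measurableSet_lt (hz _) (hw _ _)
    exact ((h1.inter (MeasurableSet.const _)).union (h1.compl.inter (MeasurableSet.const _)))
  have h2 : {z : Ω × (ℕ → ℝ) | p 0 = 0 ∧ ∀ j < n, z.2 j ∈ e1B (e z.1) p j} =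
      {z | p 0 = 0} ∩ ⋂ j ∈ Finset.range n, {z | z.2 j ∈ e1B (e z.1) p j} := by
    ext z
    simp
  rw [h2]
  exact (MeasurableSet.const _).inter (Finset.measurableSet_biInter _ (fun j _ => hj j))

theorem partE1t {Ω : Type} [MeasurableSpace Ω] (μ : Measure Ω) [IsProbabilityMeasure μ]
    (e : Ω → ℤ → ℕ → ℝ) (he : Measurable e) (h01 : ∀ w x i, e w x i ∈ Set.Icc (0:ℝ) 1) :
    (∀ n, Measurable (fun z : Ω × (ℕ → ℝ) => (st (e z.1) z.2 n).1)) ∧
      IsERW (μ.prod nu) (fun w => e w.1) (fun n z => (st (e z.1) z.2 n).1) := by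
  classical
  refine ⟨?_, ⟨?_⟩⟩
  · intro n
    apply measurable_to_countable'
    intro k
    have h : (fun z : Ω × (ℕ → ℝ) => (st (e z.1) z.2 n).1) ⁻¹' {k} =
        ⋃ (q : Fin (n + 1) → ℤ) (_ : q (Fin.last n) = k),
          {z : Ω × (ℕ → ℝ) | ∀ j ≤ n, (st (e z.1) z.2 j).1 =
            (fun j => if h : j < n + 1 then q ⟨j, h⟩ else 0) j} := by
      ext z
      simp only [Set.mem_preimage, Set.mem_singleton_iff, Set.mem_iUnion, Set.mem_setOf_eq,
        exists_prop]
      constructor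
      · intro hz
        refine ⟨fun j => (st (e z.1) z.2 j).1, hz, ?_⟩
        intro j hj
        rw [dif_pos (by omega)]
      · rintro ⟨q, hq, h⟩
        rw [h n le_rfl, dif_pos (by omega), ← hq]
        rfl
    rw [h]
    exact MeasurableSet.iUnion fun q => MeasurableSet.iUnion fun _ => E_meas e he _ n
  · intro n p A hA
    have hset : MeasurableSet {z : Ω × (ℕ → ℝ) | e z.1 ∈ A ∧
        ∀ j, j ≤ n → (st (e z.1) z.2 j).1 = p j} :=
      ((he.comp measurable_fst) hA).inter (E_meas e he p n)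
    have hA' : MeasurableSet {z : Ω × (ℕ → ℝ) | e z.1 ∈ A} := (he.comp measurable_fst) hA
    show (μ.prod nu) {z : Ω × (ℕ → ℝ) | e z.1 ∈ A ∧
        ∀ j, j ≤ n → (st (e z.1) z.2 j).1 = p j} = _
    rw [Measure.prod_apply hset]
    by_cases hp : p 0 = 0
    · rw [if_pos hp]
      have hstep : Measurable (fun ω : Ω => ∏ j ∈ Finset.range n,
          ENNReal.ofReal (stepProb (e ω) p j)) := by
        apply Finset.measurable_prod
        intro j _
        apply ENNReal.measurable_ofReal.comp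
        have hw : Measurable (fun ω => e ω (p j) (visits p j)) :=
          (measurable_pi_apply _).comp ((measurable_pi_apply _).comp he)
        unfold stepProb
        by_cases h1 : p (j + 1) = p j + 1
        · simp only [if_pos h1]; exact hw
        · by_cases h2 : p (j + 1) = p j - 1
          · simp only [if_neg h1, if_pos h2]; exact measurable_const.sub hw
          · simp only [if_neg h1, if_neg h2]; exact measurable_const
      have hm : Measurable ({z : Ω × (ℕ → ℝ) | e z.1 ∈ A}.indicator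
          (fun z : Ω × (ℕ → ℝ) => ∏ j ∈ Finset.range n,
            ENNReal.ofReal (stepProb (e z.1) p j))) :=
        (hstep.comp measurable_fst).indicator hA'
      have hR : ∫⁻ w in {w : Ω × (ℕ → ℝ) | e w.1 ∈ A}, ∏ j ∈ Finset.range n,
          ENNReal.ofReal (stepProb (e w.1) p j) ∂(μ.prod nu) =
          ∫⁻ ω, ∫⁻ u, ({z : Ω × (ℕ → ℝ) | e z.1 ∈ A}.indicator
          (fun z : Ω × (ℕ → ℝ) => ∏ j ∈ Finset.range n,
            ENNReal.ofReal (stepProb (e z.1) p j))) (ω, u) ∂nu ∂μ := by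
        rw [← lintegral_indicator hA', lintegral_prod _ hm.aemeasurable]
      rw [hR]
      apply lintegral_congr
      intro ω
      by_cases hω : e ω ∈ A
      · have e1 : (Prod.mk ω ⁻¹' {z : Ω × (ℕ → ℝ) | e z.1 ∈ A ∧
            ∀ j, j ≤ n → (st (e z.1) z.2 j).1 = p j}) =
            {u | ∀ j < n, u j ∈ e1B (e ω) p j} := by
          ext u
          simp only [Set.mem_preimage, Set.mem_setOf_eq]
          rw [st_event]
          simp [hω, hp]
        rw [e1, inner (h01 ω)]
        have e2 : ∀ u : ℕ → ℝ, ({z : Ω × (ℕ → ℝ) | e z.1 ∈ A}.indicator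
            (fun z : Ω × (ℕ → ℝ) => ∏ j ∈ Finset.range n,
              ENNReal.ofReal (stepProb (e z.1) p j)) (ω, u)) =
            ∏ j ∈ Finset.range n, ENNReal.ofReal (stepProb (e ω) p j) := by
          intro u
          rw [Set.indicator_of_mem]
          exact hω
        rw [lintegral_congr e2]
        simp
      · have e1 : (Prod.mk ω ⁻¹' {z : Ω × (ℕ → ℝ) | e z.1 ∈ A ∧
            ∀ j, j ≤ n → (st (e z.1) z.2 j).1 = p j}) = ∅ := by
          ext u
          simp [hω]
        have e2 : ∀ u : ℕ → ℝ, ({z : Ω × (ℕ → ℝ) | e z.1 ∈ A}.indicator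
            (fun z : Ω × (ℕ → ℝ) => ∏ j ∈ Finset.range n,
              ENNReal.ofReal (stepProb (e z.1) p j)) (ω, u)) = 0 := by
          intro u
          rw [Set.indicator_of_notMem]
          exact hω
        rw [e1, lintegral_congr e2]
        simp
    · rw [if_neg hp]
      have e1 : ∀ ω, nu (Prod.mk ω ⁻¹' {z : Ω × (ℕ → ℝ) | e z.1 ∈ A ∧
            ∀ j, j ≤ n → (st (e z.1) z.2 j).1 = p j}) = 0 := by
        intro ω
        have : (Prod.mk ω ⁻¹' {z : Ω × (ℕ → ℝ) | e z.1 ∈ A ∧
            ∀ j, j ≤ n → (st (e z.1) z.2 j).1 = p j}) = ∅ := by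
          ext u
          simp only [Set.mem_preimage, Set.mem_setOf_eq, Set.mem_empty_iff_false, iff_false]
          rintro ⟨-, h⟩
          exact hp ((st_event _ _ _ _).mp h).1
        rw [this]; simp
      rw [lintegral_congr e1]
      simp



attribute [local irreducible] DD NN LL cexp fz

theorem main : ∃ (Ω : Type) (_ : MeasurableSpace Ω) (μ : Measure Ω) (_ : IsProbabilityMeasure μ)
    (env : Ω → ℤ → ℕ → ℝ) (U : ℕ → Ω → ℝ) (X : ℕ → Ω → ℤ),
    Measurable env ∧ (∀ n, Measurable (U n)) ∧ (∀ n, Measurable (X n)) ∧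
    (∀ w z i, env w z i ∈ Set.Icc (0:ℝ) 1) ∧
    ProbabilityTheory.iIndepFun U μ ∧
    (∀ n, μ.map (U n) = MeasureTheory.volume.restrict (Set.Icc (0:ℝ) 1)) ∧
    ProbabilityTheory.IndepFun env (fun w n => U n w) μ ∧
    (∀ w, X 0 w = 0) ∧
    (∀ n w, X (n + 1) w = X n w +
          (if U n w < env w (X n w)
              ((Finset.range (n + 1)).filter (fun m => X m w = X n w)).card
            then (1 : ℤ) else -1)) ∧
    Ergodic (fun (e : ℤ → ℕ → ℝ) (z : ℤ) => e (z + 1)) (μ.map env) ∧
    (∃ M : ℕ, ∀ᵐ w ∂μ, ∀ z i, M < i → env w z i = 1 / 2) ∧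
    (∀ z, 0 < μ {w | ∀ i, 1 ≤ i → 0 < env w z i}) ∧
    (∀ z, 0 < μ {w | ∀ i, 1 ≤ i → env w z i < 1}) ∧
    (∫ w, (∑' i : ℕ, (2 * env w 0 (i + 1) - 1)) ∂μ = 1) ∧
    0 < μ {w | ∀ n, 1 ≤ n → 1 ≤ X n w} := by
  obtain ⟨Ω, mΩ, μ, hμ, T, r, hT, hm, hs, hlt, hsucc, hc, hu⟩ := partC
  obtain ⟨hcons, hint, hpos⟩ := partD μ T r hT.toMeasurePreserving hm hs hlt hsucc hc hu
  obtain ⟨p, hsum, hp0, hp⟩ := partB
  have hem : Measurable (fun w => ev (r w)) := ev_measurable r hm
  have h01 : ∀ w x i, ev (r w) x i ∈ Set.Icc (0:ℝ) 1 := fun w x i => om_mem _ _ _ _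
  obtain ⟨hX, hlaw⟩ := partE1t μ (fun w => ev (r w)) hem h01
  set ν : Measure (ℕ → ℝ) := nu with hν
  set X : ℕ → Ω × (ℕ → ℝ) → ℤ := fun n z => (st (ev (r z.1)) z.2 n).1 with hXdef
  have hfst : (μ.prod ν).map Prod.fst = μ := by
    rw [Measure.map_fst_prod]; simp
  have hmf : MeasurePreserving (Prod.fst : Ω × (ℕ → ℝ) → Ω) (μ.prod ν) μ := ⟨measurable_fst, hfst⟩
  have hmeasD : ∀ x : ℤ, Measurable (fun w => DD (fun j => r w j x)) := by
    intro x
    have h0 : Measurable (fun w => (fun j => r w j x)) := measurable_pi_iff.2 fun j => hm j x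
    exact Measurable.comp (g := fun s : ℕ → ℕ => DD s) (f := fun w => (fun j => r w j x))
      DD_measurable h0
  -- the type at every site is neutral with positive probability
  have hneu : ∀ z : ℤ, 0 < μ {w | DD (fun j => r w j z) = 0} := by
    have hstep : ∀ z : ℤ, μ {w | DD (fun j => r w j (z + 1)) = 0} =
        μ {w | DD (fun j => r w j z) = 0} := by
      intro z
      have hms : MeasurableSet {w | DD (fun j => r w j z) = 0} :=
        (hmeasD z) (measurableSet_singleton 0)
      rw [← hT.toMeasurePreserving.measure_preimage hms.nullMeasurableSet]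
      congr 1
      ext w
      simp only [Set.mem_preimage, Set.mem_setOf_eq, hs]
    intro z
    induction z using Int.induction_on with
    | zero => exact hpos
    | succ i ih => rw [hstep]; exact ih
    | pred i ih =>
      have := hstep (-(i:ℤ) - 1)
      rw [show -(i:ℤ) - 1 + 1 = -(i:ℤ) by ring] at this
      rw [← this]; exact ih
  have hsnd : (μ.prod ν).map Prod.snd = ν := by
    rw [Measure.map_snd_prod]; simp
  refine ⟨Ω × (ℕ → ℝ), inferInstance, μ.prod ν, inferInstance, fun w => ev (r w.1),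
    fun n w => w.2 n, X,
    hem.comp measurable_fst, fun n => (measurable_pi_apply n).comp measurable_snd, hX,
    fun w x i => h01 w.1 x i, ?_, ?_, ?_, fun w => rfl, ?_, ?_, ?_, ?_, ?_, ?_, ?_⟩
  · -- independence of the uniform variables
    have h1 := ProbabilityTheory.iIndepFun_infinitePi (P := fun _ : ℕ => e1U)
      (X := fun (_ : ℕ) (x : ℝ) => x) (fun _ => measurable_id)
    have h2 : ProbabilityTheory.iIndepFun (fun (i : ℕ) (u : ℕ → ℝ) => u i) ν := h1
    have h3 : ProbabilityTheory.iIndepFun (fun (i : ℕ) (w : Ω × (ℕ → ℝ)) => w.2 i) (μ.prod ν) := by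
      rw [ProbabilityTheory.iIndepFun_iff_measure_inter_preimage_eq_mul] at h2 ⊢
      intro S sets hsets
      have h4 := h2 S hsets
      have hmp : MeasurePreserving (Prod.snd : Ω × (ℕ → ℝ) → (ℕ → ℝ)) (μ.prod ν) ν :=
        ⟨measurable_snd, hsnd⟩
      have h5 : ∀ i ∈ S, (μ.prod ν) ((fun w : Ω × (ℕ → ℝ) => w.2 i) ⁻¹' sets i) =
          ν ((fun u : ℕ → ℝ => u i) ⁻¹' sets i) := by
        intro i hi
        have : (fun w : Ω × (ℕ → ℝ) => w.2 i) ⁻¹' sets i =
          Prod.snd ⁻¹' ((fun u : ℕ → ℝ => u i) ⁻¹' sets i) := rfl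
        rw [this, hmp.measure_preimage]
        exact ((measurable_pi_apply i) (hsets i hi)).nullMeasurableSet
      rw [Finset.prod_congr rfl h5, ← h4]
      have : (⋂ i ∈ S, (fun w : Ω × (ℕ → ℝ) => w.2 i) ⁻¹' sets i) =
          Prod.snd ⁻¹' (⋂ i ∈ S, (fun u : ℕ → ℝ => u i) ⁻¹' sets i) := by
        ext w; simp
      rw [this, hmp.measure_preimage]
      exact (Finset.measurableSet_biInter _ fun i hi =>
        (measurable_pi_apply i) (hsets i hi)).nullMeasurableSet
    exact h3
  · intro n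
    have h1 : (fun w : Ω × (ℕ → ℝ) => w.2 n) = (fun u : ℕ → ℝ => u n) ∘ Prod.snd := rfl
    show (μ.prod ν).map (fun w : Ω × (ℕ → ℝ) => w.2 n) = _
    rw [h1, ← Measure.map_map (measurable_pi_apply n) measurable_snd, hsnd, hν, nu,
      Measure.infinitePi_map_eval]
    rfl
  · -- the environment and the uniform variables are independent
    have h1 := ProbabilityTheory.indepFun_prod (μ := μ) (ν := ν)
      (X := fun w => ev (r w)) (Y := fun u : ℕ → ℝ => u) hem measurable_id
    exact h1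
  · intro n w
    have h1 := st_step (ev (r w.1)) w.2 n
    show (st (ev (r w.1)) w.2 (n + 1)).1 = _
    rw [h1]
    show _ = (st (ev (r w.1)) w.2 n).1 + (if w.2 n < ev (r w.1) (st (ev (r w.1)) w.2 n).1
      (visits (fun m => (st (ev (r w.1)) w.2 m).1) n) then (1:ℤ) else -1)
    split_ifs <;> ring
  · -- ergodicity
    have h1 : (μ.prod ν).map (fun w : Ω × (ℕ → ℝ) => ev (r w.1)) = μ.map (fun w => ev (r w)) := by
      have h2 : (fun w : Ω × (ℕ → ℝ) => ev (r w.1)) = (fun w => ev (r w)) ∘ Prod.fst := rfl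
      rw [h2, ← Measure.map_map hem measurable_fst, hfst]
    rw [h1]
    refine ergodic_map μ T hT _ hem fun w => ?_
    funext z
    funext i
    simp only [ev_eq, hs]
  · exact ⟨5, Filter.Eventually.of_forall fun w z i hi => ck_bd _ (DD_val _) i hi⟩
  · intro z
    have h1 : (Prod.fst : Ω × (ℕ → ℝ) → Ω) ⁻¹' {w | DD (fun j => r w j z) = 0} ⊆
        {w : Ω × (ℕ → ℝ) | ∀ i, 1 ≤ i → 0 < ev (r w.1) z i} := by
      intro w hw i _
      have hw' : DD (fun j => r w.1 j z) = 0 := hw
      rw [ev_eq, hw', ck_zero]; norm_num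
    refine lt_of_lt_of_le ?_ (measure_mono h1)
    have h2 : MeasurableSet {w | DD (fun j => r w j z) = 0} :=
      (hmeasD z) (measurableSet_singleton 0)
    rw [hmf.measure_preimage h2.nullMeasurableSet]
    exact hneu z
  · intro z
    have h1 : (Prod.fst : Ω × (ℕ → ℝ) → Ω) ⁻¹' {w | DD (fun j => r w j z) = 0} ⊆
        {w : Ω × (ℕ → ℝ) | ∀ i, 1 ≤ i → ev (r w.1) z i < 1} := by
      intro w hw i _
      have hw' : DD (fun j => r w.1 j z) = 0 := hw
      rw [ev_eq, hw', ck_zero]; norm_num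
    refine lt_of_lt_of_le ?_ (measure_mono h1)
    have h2 : MeasurableSet {w | DD (fun j => r w j z) = 0} :=
      (hmeasD z) (measurableSet_singleton 0)
    rw [hmf.measure_preimage h2.nullMeasurableSet]
    exact hneu z
  · -- mean drift
    have h1 : (fun w : Ω × (ℕ → ℝ) => ∑' i : ℕ, (2 * ev (r w.1) 0 (i + 1) - 1)) =
        fun w : Ω × (ℕ → ℝ) => ((DD (fun j => r w.1 j 0) : ℤ) : ℝ) := by
      funext w
      simp only [ev_eq]
      exact ck_sum _ (DD_val _)
    rw [h1]
    have hmr : Measurable (fun w => ((DD (fun j => r w j 0) : ℤ) : ℝ)) :=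
      Measurable.comp (g := fun d : ℤ => (d : ℝ)) (f := fun w => DD (fun j => r w j 0))
        (measurable_of_countable _) (hmeasD 0)
    have h2 := integral_map (μ := μ.prod ν) (φ := Prod.fst) measurable_fst.aemeasurable
      (f := fun w => ((DD (fun j => r w j 0) : ℤ) : ℝ))
      (by rw [hfst]; exact hmr.aestronglyMeasurable)
    rw [hfst] at h2
    rw [← h2]
    exact hint
  · -- survival
    obtain ⟨K, hK1, hK⟩ : ∃ K, 1 ≤ K ∧ ∀ m, ∑ N ∈ Finset.Icc K (K + m), p N ≤ 1 / 2 := by
      have h1 := tendsto_sum_nat_add p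
      have h2 : ∀ᶠ i in atTop, ∑' k, p (k + i) < 1 / 2 :=
        h1.eventually (gt_mem_nhds (by norm_num))
      obtain ⟨K, hK1, hK2⟩ := (h2.and (eventually_ge_atTop 1)).exists
      refine ⟨K, hK2, fun m => ?_⟩
      have h3 : Summable fun k => p (k + K) := (summable_nat_add_iff K).2 hsum
      have h4 : ∑ N ∈ Finset.Icc K (K + m), p N = ∑ k ∈ Finset.range (m + 1), p (k + K) := by
        rw [Finset.range_eq_Ico, Finset.sum_Ico_add' (fun k => p k) 0 (m + 1) K]
        congr 1
        ext x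
        simp only [Finset.mem_Icc, Finset.mem_Ico]
        omega
      rw [h4]
      exact (h3.sum_le_tsum _ (fun i _ => hp0 _)).trans hK1.le
    set c : ℝ := (1 / 2) ^ K * (1 / 2) with hcdef
    have hc0 : 0 < c := by positivity
    have hstay : ∀ m, ∀ᵐ w ∂(μ.prod ν), c ≤ stay (ev (r w.1)) (K + m) 0 (fun _ => 0) := by
      intro m
      have h1 : ∀ᵐ w ∂(μ.prod ν), Cons (r w.1) := hmf.quasiMeasurePreserving.ae hcons
      filter_upwards [h1] with w hw
      have h2 := partA (fun x => ca (DD fun j => r w.1 j x)) (fun x => cb (DD fun j => r w.1 j x))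
        (fun y hy => ca_cb _ (DD_val _) hy) p hp0 K hK1
        (fun N hN => hp (r w.1) hw N (hK1.trans hN)) m
      refine le_trans ?_ h2
      rw [hcdef]
      have := hK m
      have h5 : (0:ℝ) < (1 / 2) ^ K := by positivity
      nlinarith
    have hlow : ∀ n, ENNReal.ofReal c ≤
        (μ.prod ν) {w : Ω × (ℕ → ℝ) | ∀ j, 1 ≤ j → j ≤ n → 1 ≤ X j w} := by
      intro n
      have h1 := partE2 (μ.prod ν) (fun w => ev (r w.1)) X (hem.comp measurable_fst) hX
        (fun w x i => h01 w.1 x i) hlaw (K + n)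
      have h2 : ENNReal.ofReal c ≤
          ∫⁻ w, ENNReal.ofReal (stay (ev (r w.1)) (K + n) 0 (fun _ => 0)) ∂(μ.prod ν) := by
        calc ENNReal.ofReal c = ∫⁻ _w, ENNReal.ofReal c ∂(μ.prod ν) := by simp
          _ ≤ _ := by
            refine lintegral_mono_ae ?_
            filter_upwards [hstay n] with w hw
            exact ENNReal.ofReal_le_ofReal hw
      refine (h2.trans h1).trans (measure_mono ?_)
      intro w hw j hj1 hj2
      exact hw j hj1 (by omega)
    have hset : {w : Ω × (ℕ → ℝ) | ∀ n, 1 ≤ n → 1 ≤ X n w} =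
        ⋂ n : ℕ, {w : Ω × (ℕ → ℝ) | ∀ j, 1 ≤ j → j ≤ n → 1 ≤ X j w} := by
      ext w
      simp only [Set.mem_setOf_eq, Set.mem_iInter]
      exact ⟨fun h n j hj _ => h j hj, fun h n hn => h n n hn le_rfl⟩
    have hmeas : ∀ n, MeasurableSet {w : Ω × (ℕ → ℝ) | ∀ j, 1 ≤ j → j ≤ n → 1 ≤ X j w} := by
      intro n
      have : {w : Ω × (ℕ → ℝ) | ∀ j, 1 ≤ j → j ≤ n → 1 ≤ X j w} =
          ⋂ j : ℕ, ⋂ _ : 1 ≤ j, ⋂ _ : j ≤ n, {w | 1 ≤ X j w} := by
        ext w; simp
      rw [this]
      exact MeasurableSet.iInter fun j => MeasurableSet.iInter fun _ => MeasurableSet.iInter fun _ =>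
        measurableSet_le measurable_const (hX j)
    have hanti : Antitone fun n : ℕ => {w : Ω × (ℕ → ℝ) | ∀ j, 1 ≤ j → j ≤ n → 1 ≤ X j w} := by
      intro a b hab w hw j hj1 hj2
      exact hw j hj1 (hj2.trans hab)
    rw [hset]
    have hlim := tendsto_measure_iInter_atTop (μ := μ.prod ν)
      (fun n => (hmeas n).nullMeasurableSet) hanti ⟨0, measure_ne_top _ _⟩
    refine lt_of_lt_of_le (ENNReal.ofReal_pos.2 hc0) ?_
    exact ge_of_tendsto' hlim hlow

end Pool.Agent.W846.ERW
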