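import Pool.Agent.W846.ERWSystem

set_option autoImplicit false

open MeasureTheory Filter Topology
open scoped BigOperators ENNReal

/-!
The environment of `Pool.Agent.Helper878.ERW.Main` lets the walk escape above every level.
-/

namespace Pool.Agent.W846.ERW

open Pool.H878.ERW

theorem cons_shift (r : ℕ → ℤ → ℕ) (h : Cons r) (L : ℤ) : Cons (fun j x => r j (x + L)) where
  lt := fun j x => h.lt j _
  succ := fun j x => by
    have := h.succ j (x + L)
    rw [show x + 1 + L = x + L + 1 by ring]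
    exact this
  compat := fun j x => h.compat j _
  fin := fun x => h.fin _

attribute [local irreducible] DD NN LL cexp fz

theorem good_of_cons : ∃ (c : ℝ) (K : ℕ), 0 < c ∧ ∀ r, Cons r → ev r ∈ GoodEnv c K := by
  obtain ⟨p, hsum, hp0, hp⟩ := partB
  obtain ⟨K, hK1, hK⟩ : ∃ K, 1 ≤ K ∧ ∀ m, ∑ N ∈ Finset.Icc K (K + m), p N ≤ 1 / 2 := by
    have h1 := tendsto_sum_nat_add p
    have h2 : ∀ᶠ i in atTop, ∑' k, p (k + i) < 1 / 2 :=
      h1.eventually (gt_mem_nhds (by norm_num))
    obtain ⟨K, hK1, hK2⟩ := (h2.and (eventually_ge_atTop 1)).exists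
    refine ⟨K, hK2, fun m => ?_⟩
    have h3 : Summable fun k => p (k + K) := (summable_nat_add_iff K).2 hsum
    have h4 : ∑ N ∈ Finset.Icc K (K + m), p N = ∑ k ∈ Finset.range (m + 1), p (k + K) := by
      rw [Finset.range_eq_Ico, Finset.sum_Ico_add' (fun k => p k) 0 (m + 1) K]
      congr 1
      ext x
      simp only [Finset.mem_Icc, Finset.mem_Ico]
      omega
    rw [h4]
    exact (h3.sum_le_tsum _ (fun i _ => hp0 _)).trans hK1.le
  refine ⟨(1 / 2) ^ K * (1 / 2), K, by positivity, fun r hr L m => ?_⟩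
  have hr' := cons_shift r hr L
  have h2 := partA (fun x => ca (DD fun j => r j (x + L))) (fun x => cb (DD fun j => r j (x + L)))
    (fun y hy => ca_cb _ (DD_val _) hy) p hp0 K hK1
    (fun N hN => hp (fun j x => r j (x + L)) hr' N (hK1.trans hN)) m
  refine le_trans ?_ h2
  have := hK m
  have h5 : (0:ℝ) < (1 / 2) ^ K := by positivity
  nlinarith

theorem ev_val (r : ℕ → ℤ → ℕ) (x : ℤ) (i : ℕ) :
    ev r x i = 0 ∨ ev r x i = 1 / 2 ∨ ev r x i = 1 := by
  rw [ev_eq]
  unfold ck
  split_ifs <;> simp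

/-- conversion gives back the environment -/
theorem conv_ev (r : ℕ → ℤ → ℕ) : conv (fun x n => ev r x (n + 1)) = ev r := by
  funext x i
  unfold conv
  split_ifs with h
  · subst h
    rw [ev_eq]
    unfold ck
    simp
  · have h1 : i - 1 + 1 = i := by omega
    show max 0 (min 1 (ev r x (i - 1 + 1))) = ev r x i
    rw [h1]
    rcases ev_val r x i with h2 | h2 | h2 <;> rw [h2] <;> norm_num

end Pool.Agent.W846.ERW
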