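import Pool.Agent.W846.ERWTime

set_option autoImplicit false

open MeasureTheory Filter Topology
open scoped BigOperators ENNReal

/-!
The excited random walk: probability of staying above the current maximum for ever, conditionally on
the past.
-/

namespace Pool.Agent.W846.ERW

open Pool.H878.ERW

/-- probability that the walk, at `x` with `c y` previous departures from `y`, stays `> L` during
its next `n` steps -/
noncomputable def stayL (w : ℤ → ℕ → ℝ) (L : ℤ) : ℕ → ℤ → (ℤ → ℕ) → ℝ
  | 0, _, _ => 1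
  | (n + 1), x, c =>
      w x (c x + 1) * (if L < x + 1 then stayL w L n (x + 1) (Function.update c x (c x + 1)) else 0)
      + (1 - w x (c x + 1)) *
        (if L < x - 1 then stayL w L n (x - 1) (Function.update c x (c x + 1)) else 0)

/-- translation of an environment -/
def sh (w : ℤ → ℕ → ℝ) (L : ℤ) : ℤ → ℕ → ℝ := fun y i => w (y + L) i

theorem stayL_eq (w : ℤ → ℕ → ℝ) (L : ℤ) (n : ℕ) : ∀ (x : ℤ) (c : ℤ → ℕ),
    stayL w L n x c = stay (sh w L) n (x - L) (fun y => c (y + L)) := by
  induction n with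
  | zero => intro x c; rfl
  | succ n ih =>
    intro x c
    have hu : (fun y : ℤ => Function.update c x (c x + 1) (y + L)) =
        Function.update (fun y => c (y + L)) (x - L) (c x + 1) := by
      funext y
      by_cases h : y = x - L
      · subst h
        rw [Function.update_self, sub_add_cancel, Function.update_self]
      · rw [Function.update_of_ne h, Function.update_of_ne (fun h' => h (by omega))]
    rw [stayL, stay]
    simp only [sh, sub_add_cancel]
    rw [ih, ih, hu]
    have e1 : x - L + 1 = x + 1 - L := by ring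
    have e2 : x - L - 1 = x - 1 - L := by ring
    have h1 : (L < x + 1) = (1 ≤ x + 1 - L) := propext (by omega)
    have h2 : (L < x - 1) = (1 ≤ x - 1 - L) := propext (by omega)
    rw [e1, e2]
    simp only [h1, h2]

theorem stay_congr (w : ℤ → ℕ → ℝ) (n : ℕ) : ∀ (x : ℤ) (c c' : ℤ → ℕ), 0 ≤ x →
    (∀ y, 0 ≤ y → c y = c' y) → stay w n x c = stay w n x c' := by
  induction n with
  | zero => intro x c c' _ _; rfl
  | succ n ih =>
    intro x c c' hx h
    have hc : ∀ y, 0 ≤ y → Function.update c x (c x + 1) y = Function.update c' x (c' x + 1) y := by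
      intro y hy
      by_cases hyx : y = x
      · subst hyx
        rw [Function.update_self, Function.update_self, h _ hx]
      · rw [Function.update_of_ne hyx, Function.update_of_ne hyx, h y hy]
    rw [stay, stay, h x hx]
    rw [h x hx] at hc
    congr 1
    · congr 1
      split_ifs with h1
      · exact ih _ _ _ (by omega) hc
      · rfl
    · congr 1
      split_ifs with h1
      · exact ih _ _ _ (by omega) hc
      · rfl

theorem stayL_fresh (w : ℤ → ℕ → ℝ) (L : ℤ) (n : ℕ) (c : ℤ → ℕ) (hc : ∀ y, L ≤ y → c y = 0) :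
    stayL w L n L c = stay (sh w L) n 0 (fun _ => 0) := by
  rw [stayL_eq, sub_self]
  exact stay_congr _ _ _ _ _ le_rfl (fun y hy => hc _ (by omega))

theorem stayL_nonneg (w : ℤ → ℕ → ℝ) (hw : ∀ x i, w x i ∈ Set.Icc (0:ℝ) 1) (L : ℤ) (n : ℕ)
    (x : ℤ) (c : ℤ → ℕ) : 0 ≤ stayL w L n x c := by
  rw [stayL_eq]
  exact stay_nonneg _ (fun y i => hw _ _) _ _ _

theorem sh_meas (L : ℤ) : Measurable (fun w : ℤ → ℕ → ℝ => sh w L) :=
  measurable_pi_iff.2 fun y => measurable_pi_apply (y + L)

theorem stayL_meas (L : ℤ) (n : ℕ) (x : ℤ) (c : ℤ → ℕ) :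
    Measurable (fun w : ℤ → ℕ → ℝ => stayL w L n x c) := by
  simp only [stayL_eq]
  exact (stay_meas n _ _).comp (sh_meas L)

/-- the integrand attached to a prefix -/
noncomputable def integrandL (w : ℤ → ℕ → ℝ) (L : ℤ) (n k : ℕ) (p : ℕ → ℤ) : ℝ≥0∞ :=
  (∏ j ∈ Finset.range k, ENNReal.ofReal (stepProb w p j)) *
    ENNReal.ofReal (stayL w L n (p k) (cc p k))

theorem integrandL_meas (L : ℤ) (n k : ℕ) (p : ℕ → ℤ) :
    Measurable (fun w : ℤ → ℕ → ℝ => integrandL w L n k p) := by
  unfold integrandL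
  refine Measurable.mul ?_ (ENNReal.measurable_ofReal.comp (stayL_meas L n _ _))
  exact Finset.measurable_prod _ (fun j _ => ENNReal.measurable_ofReal.comp (stepProb_meas p j))

theorem integrandL_split (w : ℤ → ℕ → ℝ) (hw : ∀ x i, w x i ∈ Set.Icc (0:ℝ) 1) (L : ℤ) (n k : ℕ)
    (p q r : ℕ → ℤ) (hq : ∀ m, m ≤ k → q m = p m) (hq1 : q (k + 1) = p k + 1)
    (hr : ∀ m, m ≤ k → r m = p m) (hr1 : r (k + 1) = p k - 1) :
    integrandL w L (n + 1) k p =
      (if L < p k + 1 then integrandL w L n (k + 1) q else 0) +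
      (if L < p k - 1 then integrandL w L n (k + 1) r else 0) := by
  have hprodq : (∏ j ∈ Finset.range (k + 1), ENNReal.ofReal (stepProb w q j)) =
      (∏ j ∈ Finset.range k, ENNReal.ofReal (stepProb w p j)) *
        ENNReal.ofReal (w (p k) (cc p k (p k) + 1)) := by
    rw [Finset.prod_range_succ]
    congr 1
    · refine Finset.prod_congr rfl (fun j hj => ?_)
      rw [stepProb_congr w p q j (fun m hm => hq m (by have := Finset.mem_range.mp hj; omega))]
    · congr 1
      unfold stepProb
      rw [if_pos (by rw [hq1, hq k le_rfl]), Pool.H878.ERW.visits_congr p q k hq, visits_eq,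
        hq k le_rfl]
  have hprodr : (∏ j ∈ Finset.range (k + 1), ENNReal.ofReal (stepProb w r j)) =
      (∏ j ∈ Finset.range k, ENNReal.ofReal (stepProb w p j)) *
        ENNReal.ofReal (1 - w (p k) (cc p k (p k) + 1)) := by
    rw [Finset.prod_range_succ]
    congr 1
    · refine Finset.prod_congr rfl (fun j hj => ?_)
      rw [stepProb_congr w p r j (fun m hm => hr m (by have := Finset.mem_range.mp hj; omega))]
    · congr 1
      unfold stepProb
      rw [if_neg (by rw [hr1, hr k le_rfl]; omega), if_pos (by rw [hr1, hr k le_rfl]),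
        Pool.H878.ERW.visits_congr p r k hr, visits_eq, hr k le_rfl]
  have hccq : cc q (k + 1) = Function.update (cc p k) (p k) (cc p k (p k) + 1) := by
    rw [cc_succ, cc_congr p q k (fun m hm => hq m hm.le), hq k le_rfl]
  have hccr : cc r (k + 1) = Function.update (cc p k) (p k) (cc p k (p k) + 1) := by
    rw [cc_succ, cc_congr p r k (fun m hm => hr m hm.le), hr k le_rfl]
  have h1 := (hw (p k) (cc p k (p k) + 1)).1
  have h2 := (hw (p k) (cc p k (p k) + 1)).2
  unfold integrandL
  rw [hprodq, hprodr, hccq, hccr, hq1, hr1]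
  have h4 := stayL_nonneg w hw L n (p k + 1) (Function.update (cc p k) (p k) (cc p k (p k) + 1))
  have h5 := stayL_nonneg w hw L n (p k - 1) (Function.update (cc p k) (p k) (cc p k (p k) + 1))
  rw [stayL, ENNReal.ofReal_add, ENNReal.ofReal_mul h1, ENNReal.ofReal_mul (by linarith), mul_add]
  · congr 1
    · split_ifs
      · rw [mul_assoc]
      · simp
    · split_ifs
      · rw [mul_assoc]
      · simp
  · refine mul_nonneg h1 ?_
    split_ifs
    · exact h4
    · exact le_rfl
  · refine mul_nonneg (by linarith) ?_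
    split_ifs
    · exact h5
    · exact le_rfl

theorem cyl_meas {Ω : Type} [MeasurableSpace Ω] (env : Ω → ℤ → ℕ → ℝ) (henv : Measurable env)
    (X : ℕ → Ω → ℤ) (hX : ∀ n, Measurable (X n)) (A : Set (ℤ → ℕ → ℝ)) (hA : MeasurableSet A)
    (k : ℕ) (p : ℕ → ℤ) :
    MeasurableSet {w | env w ∈ A ∧ ∀ j, j ≤ k → X j w = p j} := by
  have h1 : MeasurableSet {w | ∀ j, j ≤ k → X j w = p j} := by
    have : {w | ∀ j, j ≤ k → X j w = p j} = ⋂ j, ⋂ (_ : j ≤ k), {w | X j w = p j} := by
      ext w; simp
    rw [this]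
    exact MeasurableSet.iInter (fun j => MeasurableSet.iInter
      (fun _ => hX j (measurableSet_singleton _)))
  exact (henv hA).inter h1

theorem above_meas {Ω : Type} [MeasurableSpace Ω] (X : ℕ → Ω → ℤ) (hX : ∀ n, Measurable (X n))
    (L : ℤ) (k n : ℕ) : MeasurableSet {w | ∀ j, k < j → j ≤ n → L < X j w} := by
  have : {w | ∀ j, k < j → j ≤ n → L < X j w} =
      ⋂ j, ⋂ (_ : k < j), ⋂ (_ : j ≤ n), {w | L < X j w} := by
    ext w; simp
  rw [this]
  exact MeasurableSet.iInter (fun j => MeasurableSet.iInter (fun _ => MeasurableSet.iInter (fun _ =>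
    hX j measurableSet_Ioi)))

theorem level_aux {Ω : Type} [MeasurableSpace Ω] (μ : Measure Ω) [IsProbabilityMeasure μ]
    (env : Ω → ℤ → ℕ → ℝ) (X : ℕ → Ω → ℤ) (henv : Measurable env) (hX : ∀ n, Measurable (X n))
    (h01 : ∀ w x i, env w x i ∈ Set.Icc (0:ℝ) 1) (h : IsERW μ env X) (L : ℤ) (k₀ : ℕ)
    (A : Set (ℤ → ℕ → ℝ)) (hA : MeasurableSet A) (n : ℕ) :
    ∀ (k : ℕ) (p : ℕ → ℤ), p 0 = 0 → k₀ ≤ k → (∀ j, k₀ < j → j ≤ k → L < p j) →
      ∫⁻ w in {w | env w ∈ A}, integrandL (env w) L n k p ∂μ ≤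
        μ ({w | env w ∈ A ∧ ∀ j, j ≤ k → X j w = p j} ∩
          {w | ∀ j, k₀ < j → j ≤ k + n → L < X j w}) := by
  induction n with
  | zero =>
    intro k p hp0 _ hp
    have h1 := h.law k p A hA
    rw [if_pos hp0] at h1
    have h2 : {w | env w ∈ A ∧ ∀ j, j ≤ k → X j w = p j} ∩
          {w | ∀ j, k₀ < j → j ≤ k + 0 → L < X j w} =
        {w | env w ∈ A ∧ ∀ j, j ≤ k → X j w = p j} := by
      ext w
      simp only [Set.mem_inter_iff, Set.mem_ofPred_eq]
      constructor
      · exact fun h3 => h3.1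
      · intro h3
        refine ⟨h3, fun j hj1 hj2 => ?_⟩
        rw [h3.2 j hj2]
        exact hp j hj1 hj2
    rw [h2, h1]
    simp [integrandL, stayL]
  | succ n ih =>
    intro k p hp0 hk hp
    let q : ℕ → ℤ := Function.update p (k + 1) (p k + 1)
    let r : ℕ → ℤ := Function.update p (k + 1) (p k - 1)
    have hq : ∀ m, m ≤ k → q m = p m := fun m hm => Function.update_of_ne (by omega) _ _
    have hr : ∀ m, m ≤ k → r m = p m := fun m hm => Function.update_of_ne (by omega) _ _
    have hq1 : q (k + 1) = p k + 1 := Function.update_self _ _ _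
    have hr1 : r (k + 1) = p k - 1 := Function.update_self _ _ _
    have hsplit : ∀ w, integrandL (env w) L (n + 1) k p =
        (if L < p k + 1 then integrandL (env w) L n (k + 1) q else 0) +
        (if L < p k - 1 then integrandL (env w) L n (k + 1) r else 0) := fun w =>
      integrandL_split (env w) (h01 w) L n k p q r hq hq1 hr hr1
    simp_rw [hsplit]
    have hm1 : Measurable (fun w => if L < p k + 1 then integrandL (env w) L n (k + 1) q
        else 0) := by
      split_ifs
      · exact (integrandL_meas L n (k + 1) q).comp henv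
      · exact measurable_const
    rw [lintegral_add_left hm1]
    let Eq' : Set Ω := {w | env w ∈ A ∧ ∀ j, j ≤ k + 1 → X j w = q j} ∩
      {w | ∀ j, k₀ < j → j ≤ k + 1 + n → L < X j w}
    let Er : Set Ω := {w | env w ∈ A ∧ ∀ j, j ≤ k + 1 → X j w = r j} ∩
      {w | ∀ j, k₀ < j → j ≤ k + 1 + n → L < X j w}
    have hA' : ∫⁻ w in {w | env w ∈ A},
        (if L < p k + 1 then integrandL (env w) L n (k + 1) q else 0) ∂μ ≤ μ Eq' := by
      split_ifs with hc
      · refine ih (k + 1) q (by rw [hq 0 (Nat.zero_le _), hp0]) (by omega) (fun j hj1 hj2 => ?_)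
        rcases Nat.lt_or_ge k j with h3 | h3
        · have : j = k + 1 := by omega
          rw [this, hq1]; exact hc
        · rw [hq j h3]; exact hp j hj1 h3
      · simp
    have hB : ∫⁻ w in {w | env w ∈ A},
        (if L < p k - 1 then integrandL (env w) L n (k + 1) r else 0) ∂μ ≤ μ Er := by
      split_ifs with hc
      · refine ih (k + 1) r (by rw [hr 0 (Nat.zero_le _), hp0]) (by omega) (fun j hj1 hj2 => ?_)
        rcases Nat.lt_or_ge k j with h3 | h3
        · have : j = k + 1 := by omega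
          rw [this, hr1]; exact hc
        · rw [hr j h3]; exact hp j hj1 h3
      · simp
    refine (add_le_add hA' hB).trans ?_
    have hdisj : Disjoint Eq' Er := by
      rw [Set.disjoint_left]
      intro w h3 h4
      have h5 := h3.1.2 (k + 1) le_rfl
      have h6 := h4.1.2 (k + 1) le_rfl
      rw [hq1] at h5
      rw [hr1] at h6
      omega
    rw [← measure_union hdisj ((cyl_meas env henv X hX A hA (k + 1) r).inter
      (above_meas X hX L k₀ (k + 1 + n)))]
    refine measure_mono ?_
    rintro w (h3 | h3)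
    · refine ⟨⟨h3.1.1, fun j hj => ?_⟩, fun j hj1 hj2 => h3.2 j hj1 (by omega)⟩
      rw [h3.1.2 j (by omega), hq j hj]
    · refine ⟨⟨h3.1.1, fun j hj => ?_⟩, fun j hj1 hj2 => h3.2 j hj1 (by omega)⟩
      rw [h3.1.2 j (by omega), hr j hj]

/-- The environments for which the walk started at any level stays above it for ever with
probability at least `c`, uniformly in the level. -/
def GoodEnv (c : ℝ) (K : ℕ) : Set (ℤ → ℕ → ℝ) :=
  {w | ∀ (L : ℤ) (m : ℕ), c ≤ stay (sh w L) (K + m) 0 (fun _ => 0)}

theorem goodEnv_meas (c : ℝ) (K : ℕ) : MeasurableSet (GoodEnv c K) := by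
  have : GoodEnv c K = ⋂ (L : ℤ), ⋂ (m : ℕ), {w | c ≤ stay (sh w L) (K + m) 0 (fun _ => 0)} := by
    ext w; simp [GoodEnv]
  rw [this]
  exact MeasurableSet.iInter fun L => MeasurableSet.iInter fun m =>
    measurableSet_le measurable_const ((stay_meas _ _ _).comp (sh_meas L))

/-- conditionally on the past, at a time of a new maximum the walk stays above it for ever with
probability at least `c` -/
theorem survive_cyl {Ω : Type} [MeasurableSpace Ω] (μ : Measure Ω) [IsProbabilityMeasure μ]
    (env : Ω → ℤ → ℕ → ℝ) (X : ℕ → Ω → ℤ) (henv : Measurable env) (hX : ∀ n, Measurable (X n))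
    (h01 : ∀ w x i, env w x i ∈ Set.Icc (0:ℝ) 1) (h : IsERW μ env X) (c : ℝ) (K : ℕ)
    (hgood : ∀ᵐ w ∂μ, env w ∈ GoodEnv c K) (n : ℕ) (p : ℕ → ℤ)
    (hrec : ∀ j, j < n → p j < p n) (A : Set (ℤ → ℕ → ℝ)) (hA : MeasurableSet A) :
    ENNReal.ofReal c * μ {w | env w ∈ A ∧ ∀ j, j ≤ n → X j w = p j} ≤
      μ ({w | env w ∈ A ∧ ∀ j, j ≤ n → X j w = p j} ∩ {w | ∀ j, n < j → p n < X j w}) := by
  by_cases hp0 : p 0 = 0
  · have hfin : ∀ m, ENNReal.ofReal c * μ {w | env w ∈ A ∧ ∀ j, j ≤ n → X j w = p j} ≤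
      μ ({w | env w ∈ A ∧ ∀ j, j ≤ n → X j w = p j} ∩
        {w | ∀ j, n < j → j ≤ n + (K + m) → p n < X j w}) := by
      intro m
      refine le_trans ?_ (level_aux μ env X henv hX h01 h (p n) n A hA (K + m) n p hp0 le_rfl
        (fun j h1 h2 => by omega))
      have h1 := h.law n p A hA
      rw [if_pos hp0] at h1
      rw [h1, ← lintegral_const_mul]
      · refine lintegral_mono_ae ?_
        filter_upwards [ae_restrict_of_ae hgood] with w hw
        unfold integrandL
        rw [mul_comm]
        refine mul_le_mul_right (ENNReal.ofReal_le_ofReal ?_) _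
        have h2 : ∀ y, p n ≤ y → cc p n y = 0 := by
          intro y hy
          unfold cc
          rw [Finset.card_eq_zero, Finset.filter_eq_empty_iff]
          intro j hj h3
          have := hrec j (Finset.mem_range.mp hj)
          omega
        rw [stayL_fresh _ _ _ _ h2]
        exact hw (p n) m
      · exact Finset.measurable_prod _ (fun j _ => ENNReal.measurable_ofReal.comp
          ((stepProb_meas p j).comp henv))
    have hset : {w | env w ∈ A ∧ ∀ j, j ≤ n → X j w = p j} ∩ {w | ∀ j, n < j → p n < X j w} =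
        ⋂ m : ℕ, {w | env w ∈ A ∧ ∀ j, j ≤ n → X j w = p j} ∩
        {w | ∀ j, n < j → j ≤ n + (K + m) → p n < X j w} := by
      ext w
      simp only [Set.mem_inter_iff, Set.mem_ofPred_eq, Set.mem_iInter]
      constructor
      · rintro ⟨h1, h2⟩ m
        exact ⟨h1, fun j hj _ => h2 j hj⟩
      · intro h1
        refine ⟨(h1 0).1, fun j hj => (h1 j).2 j hj (by omega)⟩
    rw [hset]
    have hmeas : ∀ m : ℕ, MeasurableSet ({w | env w ∈ A ∧ ∀ j, j ≤ n → X j w = p j} ∩
        {w | ∀ j, n < j → j ≤ n + (K + m) → p n < X j w}) := fun m =>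
      (cyl_meas env henv X hX A hA n p).inter (above_meas X hX (p n) n (n + (K + m)))
    have hanti : Antitone fun m : ℕ => {w | env w ∈ A ∧ ∀ j, j ≤ n → X j w = p j} ∩
        {w | ∀ j, n < j → j ≤ n + (K + m) → p n < X j w} := by
      intro a b hab w hw
      exact ⟨hw.1, fun j hj1 hj2 => hw.2 j hj1 (by omega)⟩
    have hlim := tendsto_measure_iInter_atTop (μ := μ)
      (fun m => (hmeas m).nullMeasurableSet) hanti ⟨0, measure_ne_top _ _⟩
    exact ge_of_tendsto' hlim hfin
  · have h1 := h.law n p A hA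
    rw [if_neg hp0] at h1
    rw [h1]
    simp

end Pool.Agent.W846.ERW
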