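import Pool.Agent.W846.ERWTransient

set_option autoImplicit false

open MeasureTheory Filter Topology
open scoped BigOperators ENNReal

/-!
From the conditional probabilities of the steps of a walker to the law of its path.
-/

namespace Pool.Agent.W846.ERW

open Pool.H878.ERW

/-- environments with cookies numbered from `0` turned into environments with cookies numbered from
`1` (values are truncated to `[0,1]`) -/
noncomputable def conv (e : ℤ → ℕ → ℝ) : ℤ → ℕ → ℝ :=
  fun x i => if i = 0 then 1 / 2 else max 0 (min 1 (e x (i - 1)))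

theorem conv_mem (e : ℤ → ℕ → ℝ) (x : ℤ) (i : ℕ) : conv e x i ∈ Set.Icc (0:ℝ) 1 := by
  unfold conv
  split_ifs
  · norm_num
  · exact ⟨le_max_left _ _, max_le zero_le_one (min_le_left _ _)⟩

theorem conv_meas : Measurable conv := by
  refine measurable_pi_iff.2 fun x => measurable_pi_iff.2 fun i => ?_
  unfold conv
  split_ifs
  · exact measurable_const
  · exact measurable_const.max (measurable_const.min
      ((measurable_pi_apply (i - 1)).comp (measurable_pi_apply x)))

theorem conv_succ (e : ℤ → ℕ → ℝ) (x : ℤ) (i : ℕ) (h : e x i ∈ Set.Icc (0:ℝ) 1) :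
    conv e x (i + 1) = e x i := by
  unfold conv
  rw [if_neg (Nat.succ_ne_zero i), Nat.add_sub_cancel, min_eq_right h.2, max_eq_right h.1]

theorem visits_eq_filter (p : ℕ → ℤ) (n : ℕ) :
    visits p n = ((Finset.range n).filter (fun m => p m = p n)).card + 1 := by
  rw [visits_eq]
  rfl

section

variable {Θ : Type} [m0 : MeasurableSpace Θ] (μ : Measure Θ) [IsProbabilityMeasure μ]
  (V : Θ → ℤ → ℕ → ℝ) (X : ℕ → Θ → ℤ)

/-- one-step extension of the law, as an identity of integrals -/
theorem cyl_lintegral (hV : Measurable V) (hX : ∀ n, Measurable (X n)) (n : ℕ) (p : ℕ → ℤ)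
    (H : ∀ A : Set (ℤ → ℕ → ℝ), MeasurableSet A →
      μ {w | V w ∈ A ∧ ∀ j, j ≤ n → X j w = p j} =
        ∫⁻ w in {w | V w ∈ A}, ∏ j ∈ Finset.range n, ENNReal.ofReal (stepProb (V w) p j) ∂μ)
    (f : (ℤ → ℕ → ℝ) → ℝ≥0∞) (hf : Measurable f) (A : Set (ℤ → ℕ → ℝ)) (hA : MeasurableSet A) :
    ∫⁻ w in {w | V w ∈ A ∧ ∀ j, j ≤ n → X j w = p j}, f (V w) ∂μ =
      ∫⁻ w in {w | V w ∈ A},
        (∏ j ∈ Finset.range n, ENNReal.ofReal (stepProb (V w) p j)) * f (V w) ∂μ := by
  have hD : MeasurableSet {w | ∀ j, j ≤ n → X j w = p j} := by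
    have : {w | ∀ j, j ≤ n → X j w = p j} = ⋂ j, ⋂ (_ : j ≤ n), {w | X j w = p j} := by
      ext w; simp
    rw [this]
    exact MeasurableSet.iInter (fun j => MeasurableSet.iInter
      (fun _ => hX j (measurableSet_singleton _)))
  have hPm : Measurable (fun w : ℤ → ℕ → ℝ =>
      ∏ j ∈ Finset.range n, ENNReal.ofReal (stepProb w p j)) :=
    Finset.measurable_prod _ (fun j _ => ENNReal.measurable_ofReal.comp (stepProb_meas p j))
  have hρ : (μ.restrict {w | ∀ j, j ≤ n → X j w = p j}).map V =
      (μ.map V).withDensity (fun e => ∏ j ∈ Finset.range n, ENNReal.ofReal (stepProb e p j)) := by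
    ext B hB
    rw [Measure.map_apply hV hB, Measure.restrict_apply (hV hB), withDensity_apply _ hB,
      setLIntegral_map hB hPm hV]
    exact H B hB
  have e1 : {w | V w ∈ A ∧ ∀ j, j ≤ n → X j w = p j} =
      V ⁻¹' A ∩ {w | ∀ j, j ≤ n → X j w = p j} := rfl
  have e2 : {w | V w ∈ A} = V ⁻¹' A := rfl
  have h2 := setLIntegral_map (μ := μ) hA (hPm.mul hf) hV
  rw [e1, ← Measure.restrict_restrict (hV hA), ← setLIntegral_map hA hf hV, hρ, e2,
    setLIntegral_withDensity_eq_setLIntegral_mul _ hPm hf hA, h2]
  rfl

/-- from the conditional probabilities to the law of the path -/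
theorem isERW_of_steps (hV : Measurable V) (hX : ∀ n, Measurable (X n))
    (h01 : ∀ w x i, V w x i ∈ Set.Icc (0:ℝ) 1)
    (h0 : ∀ᵐ w ∂μ, X 0 w = 0)
    (hnear : ∀ n, ∀ᵐ w ∂μ, X (n + 1) w = X n w + 1 ∨ X (n + 1) w = X n w - 1)
    (hstep : ∀ n, ∀ (p : ℕ → ℤ) (A : Set (ℤ → ℕ → ℝ)), MeasurableSet A →
      μ ({w | V w ∈ A ∧ ∀ j, j ≤ n → X j w = p j} ∩ {w | X (n + 1) w = X n w + 1}) =
        ∫⁻ w in {w | V w ∈ A ∧ ∀ j, j ≤ n → X j w = p j},
          ENNReal.ofReal (V w (p n) (visits p n)) ∂μ) :
    IsERW μ V X := by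
  constructor
  intro n
  induction n with
  | zero =>
    intro p A hA
    split_ifs with hp
    · simp only [Finset.range_zero, Finset.prod_empty, lintegral_const, MeasurableSet.univ,
        Measure.restrict_apply, Set.univ_inter, one_mul]
      refine measure_congr ?_
      filter_upwards [h0] with w hw
      refine propext ?_
      constructor
      · exact fun h => h.1
      · intro h
        refine ⟨h, fun j hj => ?_⟩
        obtain rfl : j = 0 := by omega
        rw [hw, hp]
    · refine measure_mono_null ?_ (ae_iff.mp h0)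
      intro w hw
      rw [Set.mem_ofPred_eq]
      rw [hw.2 0 le_rfl]
      exact hp
  | succ n ih =>
    intro p A hA
    have hsplit : ∀ (E : Set Θ), {w | V w ∈ A ∧ ∀ j, j ≤ n + 1 → X j w = p j} =
        {w | V w ∈ A ∧ ∀ j, j ≤ n → X j w = p j} ∩ {w | X (n + 1) w = p (n + 1)} := by
      intro _
      ext w
      simp only [Set.mem_inter_iff, Set.mem_ofPred_eq]
      constructor
      · rintro ⟨h1, h2⟩
        exact ⟨⟨h1, fun j hj => h2 j (by omega)⟩, h2 _ le_rfl⟩
      · rintro ⟨⟨h1, h2⟩, h3⟩
        refine ⟨h1, fun j hj => ?_⟩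
        rcases Nat.lt_or_ge n j with h4 | h4
        · have : j = n + 1 := by omega
          rw [this, h3]
        · exact h2 j h4
    have hsplit := hsplit Set.univ
    by_cases hp0 : p 0 = 0
    swap
    · rw [if_neg hp0]
      have h1 := ih p A hA
      rw [if_neg hp0] at h1
      refine measure_mono_null ?_ h1
      rw [hsplit]
      exact Set.inter_subset_left
    rw [if_pos hp0]
    have H : ∀ A : Set (ℤ → ℕ → ℝ), MeasurableSet A →
      μ {w | V w ∈ A ∧ ∀ j, j ≤ n → X j w = p j} =
        ∫⁻ w in {w | V w ∈ A}, ∏ j ∈ Finset.range n, ENNReal.ofReal (stepProb (V w) p j) ∂μ := by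
      intro A hA
      have := ih p A hA
      rwa [if_pos hp0] at this
    have hVm : Measurable (fun e : ℤ → ℕ → ℝ => e (p n) (visits p n)) :=
      (measurable_pi_apply (visits p n)).comp (measurable_pi_apply (p n))
    have hright : μ ({w | V w ∈ A ∧ ∀ j, j ≤ n → X j w = p j} ∩
        {w | X (n + 1) w = X n w + 1}) = ∫⁻ w in {w | V w ∈ A},
        (∏ j ∈ Finset.range n, ENNReal.ofReal (stepProb (V w) p j)) *
          ENNReal.ofReal (V w (p n) (visits p n)) ∂μ := by
      rw [hstep n p A hA]
      exact cyl_lintegral μ V X hV hX n p H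
        (fun e => ENNReal.ofReal (e (p n) (visits p n))) (ENNReal.measurable_ofReal.comp hVm) A hA
    have hCm := cyl_meas V hV X hX A hA n p
    have hRm : MeasurableSet {w | X (n + 1) w = X n w + 1} :=
      measurableSet_eq_fun (hX (n + 1)) ((hX n).add_const 1)
    rw [hsplit]
    simp only [Finset.prod_range_succ]
    by_cases h1 : p (n + 1) = p n + 1
    · have e1 : ∀ w, stepProb (V w) p n = V w (p n) (visits p n) := fun w => by
        unfold stepProb; rw [if_pos h1]
      simp only [e1]
      rw [← hright]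
      congr 1
      ext w
      simp only [Set.mem_inter_iff, Set.mem_ofPred_eq]
      refine and_congr_right fun h => ?_
      rw [h1, h.2 n le_rfl]
    · by_cases h2 : p (n + 1) = p n - 1
      · have e1 : ∀ w, stepProb (V w) p n = 1 - V w (p n) (visits p n) := fun w => by
          unfold stepProb; rw [if_neg h1, if_pos h2]
        simp only [e1]
        have hleft : μ ({w | V w ∈ A ∧ ∀ j, j ≤ n → X j w = p j} ∩
            {w | X (n + 1) w = p (n + 1)}) =
            μ ({w | V w ∈ A ∧ ∀ j, j ≤ n → X j w = p j} \ {w | X (n + 1) w = X n w + 1}) := by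
          refine measure_congr ?_
          filter_upwards [hnear n] with w hw
          refine propext ?_
          constructor
          · rintro ⟨h3, h4⟩
            refine ⟨h3, fun h5 => ?_⟩
            rw [Set.mem_ofPred_eq] at h5
            have h6 := h3.2 n le_rfl
            have h7 : X (n + 1) w = p (n + 1) := h4
            omega
          · rintro ⟨h3, h4⟩
            refine ⟨h3, ?_⟩
            show X (n + 1) w = p (n + 1)
            have h6 := h3.2 n le_rfl
            rcases hw with h5 | h5
            · exact absurd h5 h4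
            · omega
        rw [hleft]
        have hadd := measure_inter_add_diff (μ := μ)
          {w | V w ∈ A ∧ ∀ j, j ≤ n → X j w = p j} hRm
        have hC : μ {w | V w ∈ A ∧ ∀ j, j ≤ n → X j w = p j} = ∫⁻ w in {w | V w ∈ A},
            (∏ j ∈ Finset.range n, ENNReal.ofReal (stepProb (V w) p j)) *
              ENNReal.ofReal (V w (p n) (visits p n)) ∂μ +
            ∫⁻ w in {w | V w ∈ A},
            (∏ j ∈ Finset.range n, ENNReal.ofReal (stepProb (V w) p j)) *
              ENNReal.ofReal (1 - V w (p n) (visits p n)) ∂μ := by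
          rw [H A hA, ← lintegral_add_left]
          · refine lintegral_congr fun w => ?_
            rw [← mul_add, ← ENNReal.ofReal_add (h01 w _ _).1 (by linarith [(h01 w (p n)
              (visits p n)).2])]
            simp
          · exact (Finset.measurable_prod _ (fun j _ => ENNReal.measurable_ofReal.comp
              ((stepProb_meas p j).comp hV))).mul (ENNReal.measurable_ofReal.comp (hVm.comp hV))
        rw [← hright] at hC
        rw [hC] at hadd
        exact (ENNReal.add_right_inj (by finiteness)).mp hadd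
      · have e1 : ∀ w, stepProb (V w) p n = 0 := fun w => by
          unfold stepProb; rw [if_neg h1, if_neg h2]
        simp only [e1, ENNReal.ofReal_zero, mul_zero, lintegral_zero]
        refine measure_mono_null ?_ (ae_iff.mp (hnear n))
        rintro w ⟨h3, h4⟩
        rw [Set.mem_ofPred_eq]
        have h6 := h3.2 n le_rfl
        have h7 : X (n + 1) w = p (n + 1) := h4
        omega

end

end Pool.Agent.W846.ERW
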