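import Pool.Agent.W846.ERWLevel

set_option autoImplicit false

open MeasureTheory Filter Topology
open scoped BigOperators ENNReal

/-!
The excited random walk in an environment in which it escapes above every new maximum with a
probability bounded below is transient.
-/

namespace Pool.Agent.W846.ERW

open Pool.H878.ERW

/-- an event which is incompatible with escapes that have conditional probability at least `c`
infinitely often has probability zero -/
theorem levy_kill {Ω : Type} [m0 : MeasurableSpace Ω] (μ : Measure Ω) [IsProbabilityMeasure μ]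
    (ℱ : Filtration ℕ m0) (A : Set Ω) (hA : MeasurableSet[⨆ n, ℱ n] A) (c : ℝ) (hc : 0 < c)
    (G E : ℕ → Set Ω) (n0 : ℕ) (hG : ∀ n, MeasurableSet[ℱ n] (G n))
    (h : ∀ n, ∀ B, MeasurableSet[ℱ n] B → B ⊆ G n →
      ENNReal.ofReal c * μ B ≤ μ (B ∩ E n))
    (hdisj : ∀ n, n0 ≤ n → ∀ w ∈ A, w ∈ G n → w ∉ E n)
    (hE : ∀ n, MeasurableSet (E n))
    (hio : ∀ w ∈ A, ∃ᶠ n in atTop, w ∈ G n) : μ A = 0 := by
  have hle : (⨆ n, ℱ n) ≤ m0 := iSup_le fun n => ℱ.le n
  have hAm : MeasurableSet A := hle _ hA
  set g : Ω → ℝ := A.indicator (fun _ => (1:ℝ)) with hg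
  have hgint : Integrable g μ := (integrable_const (1:ℝ)).indicator hAm
  have hgsm : StronglyMeasurable[⨆ n, ℱ n] g := by
    exact (@stronglyMeasurable_const _ _ (⨆ n, ℱ n) _ (1:ℝ)).indicator hA
  have hlim := tendsto_ae_condExp (μ := μ) (ℱ := ℱ) g
  have hgg : μ[g | ⨆ n, ℱ n] = g := condExp_of_stronglyMeasurable hle hgsm hgint
  rw [hgg] at hlim
  have key : ∀ n, n0 ≤ n → ∀ᵐ w ∂μ, w ∈ G n → (μ[g | ℱ n]) w ≤ 1 - c := by
    intro n hn
    set B : Set Ω := G n ∩ {w | 1 - c < (μ[g | ℱ n]) w} with hB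
    have hsm : StronglyMeasurable[ℱ n] (μ[g | ℱ n]) := stronglyMeasurable_condExp
    have hBm : MeasurableSet[ℱ n] B := by
      refine (hG n).inter ?_
      exact hsm.measurable measurableSet_Ioi
    have hBm' : MeasurableSet B := ℱ.le n _ hBm
    have h1 : ∫ w in B, (μ[g | ℱ n]) w ∂μ = μ.real (A ∩ B) := by
      rw [setIntegral_condExp (ℱ.le n) hgint hBm, hg, setIntegral_indicator hAm]
      simp [Set.inter_comm]
    have h2 : μ.real (A ∩ B) ≤ (1 - c) * μ.real B := by
      have h3 : μ.real (A ∩ B) ≤ μ.real (B \ E n) := by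
        refine measureReal_mono ?_ (by finiteness)
        intro w hw
        exact ⟨hw.2, hdisj n hn w hw.1 hw.2.1⟩
      have h4 : μ.real (B ∩ E n) + μ.real (B \ E n) = μ.real B :=
        measureReal_inter_add_diff (hE n)
      have h5 := h n B hBm (Set.inter_subset_left)
      have h6 : c * μ.real B ≤ μ.real (B ∩ E n) := by
        have := ENNReal.toReal_mono (measure_ne_top _ _) h5
        rw [ENNReal.toReal_mul, ENNReal.toReal_ofReal hc.le] at this
        exact this
      linarith
    have h3 : ∫ w in B, ((μ[g | ℱ n]) w - (1 - c)) ∂μ ≤ 0 := by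
      rw [integral_sub integrable_condExp.integrableOn (integrable_const _), h1]
      simp only [integral_const, MeasurableSet.univ, measureReal_restrict_apply, Set.univ_inter,
        smul_eq_mul]
      linarith
    have h4 : 0 ≤ᵐ[μ.restrict B] fun w => (μ[g | ℱ n]) w - (1 - c) := by
      rw [EventuallyLE, ae_restrict_iff' hBm']
      filter_upwards with w hw
      have := hw.2
      simp only [Pi.zero_apply, Set.mem_ofPred_eq] at this ⊢
      linarith
    have h5 : ∫ w in B, ((μ[g | ℱ n]) w - (1 - c)) ∂μ = 0 :=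
      le_antisymm h3 (integral_nonneg_of_ae h4)
    have h6 := (setIntegral_eq_zero_iff_of_nonneg_ae h4
      (integrable_condExp.sub (integrable_const _)).integrableOn).1 h5
    rw [EventuallyEq, ae_restrict_iff' hBm'] at h6
    filter_upwards [h6] with w hw hGw
    by_contra hlt
    rw [not_le] at hlt
    have := hw ⟨hGw, hlt⟩
    simp only [Pi.zero_apply] at this
    linarith
  have key' : ∀ᵐ w ∂μ, ∀ n, n0 ≤ n → w ∈ G n → (μ[g | ℱ n]) w ≤ 1 - c := by
    rw [ae_all_iff]
    intro n
    by_cases hn : n0 ≤ n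
    · filter_upwards [key n hn] with w hw _ using hw
    · filter_upwards with w hw
      exact absurd hw hn
  rw [measure_eq_zero_iff_ae_notMem]
  filter_upwards [hlim, key'] with w h1 h2 hwA
  have h3 : g w = 1 := by rw [hg, Set.indicator_of_mem hwA]
  rw [h3] at h1
  have h4 : ∀ᶠ n in atTop, 1 - c < (μ[g | ℱ n]) w :=
    h1.eventually (lt_mem_nhds (by linarith))
  obtain ⟨n, hn1, hn2, hn3⟩ := ((hio w hwA).and_eventually
    (h4.and (eventually_ge_atTop n0))).exists
  have := h2 n hn3 hn1
  linarith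

section walk

variable {Ω : Type} [m0 : MeasurableSpace Ω] (W : Ω → ℤ → ℕ → ℝ) (X : ℕ → Ω → ℤ)

/-- environment and path up to time `n` -/
def hist (n : ℕ) (w : Ω) : (ℤ → ℕ → ℝ) × (Fin (n + 1) → ℤ) := (W w, fun i => X i w)

theorem hist_meas (hW : Measurable W) (hX : ∀ n, Measurable (X n)) (n : ℕ) :
    Measurable (hist W X n) :=
  hW.prodMk (measurable_pi_lambda _ fun _ => hX _)

/-- the filtration of the environment and the walk -/
def filt (hW : Measurable W) (hX : ∀ n, Measurable (X n)) : Filtration ℕ m0 where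
  seq n := MeasurableSpace.comap (hist W X n) inferInstance
  mono' := by
    intro m n hmn
    have : hist W X m = (fun z : (ℤ → ℕ → ℝ) × (Fin (n + 1) → ℤ) =>
        (z.1, fun i : Fin (m + 1) => z.2 ⟨i.1, by omega⟩)) ∘ hist W X n := by
      funext w
      rfl
    show MeasurableSpace.comap (hist W X m) _ ≤ MeasurableSpace.comap (hist W X n) _
    rw [this, ← MeasurableSpace.comap_comp]
    refine MeasurableSpace.comap_mono ?_
    rw [← measurable_iff_comap_le]
    exact measurable_fst.prodMk (measurable_pi_lambda _ fun i =>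
      (measurable_pi_apply _).comp measurable_snd)
  le' n := (hist_meas W X hW hX n).comap_le

variable {W X}

theorem filt_W (hW : Measurable W) (hX : ∀ n, Measurable (X n)) (n : ℕ) :
    Measurable[filt W X hW hX n] W := by
  have h1 : Measurable[filt W X hW hX n] (hist W X n) := comap_measurable _
  exact measurable_fst.comp h1

theorem filt_X (hW : Measurable W) (hX : ∀ n, Measurable (X n)) (n j : ℕ) (hj : j ≤ n) :
    Measurable[filt W X hW hX n] (X j) := by
  have h1 : Measurable[filt W X hW hX n] (hist W X n) := comap_measurable _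
  exact ((measurable_pi_apply (⟨j, by omega⟩ : Fin (n + 1))).comp measurable_snd).comp h1

/-- reduction to cylinders -/
theorem reduce (μ : Measure Ω) [IsProbabilityMeasure μ] (hW : Measurable W)
    (hX : ∀ n, Measurable (X n)) (c : ℝ≥0∞) (n : ℕ) (G E : Set Ω) (hE : MeasurableSet E)
    (h : ∀ (p : ℕ → ℤ) (A : Set (ℤ → ℕ → ℝ)), MeasurableSet A →
      {w | W w ∈ A ∧ ∀ j, j ≤ n → X j w = p j} ⊆ G →
      c * μ {w | W w ∈ A ∧ ∀ j, j ≤ n → X j w = p j} ≤
        μ ({w | W w ∈ A ∧ ∀ j, j ≤ n → X j w = p j} ∩ E))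
    (B : Set Ω) (hB : MeasurableSet[filt W X hW hX n] B) (hBG : B ⊆ G) :
    c * μ B ≤ μ (B ∩ E) := by
  obtain ⟨S, hS, rfl⟩ := hB
  let C : (Fin (n + 1) → ℤ) → Set Ω := fun q =>
    {w | W w ∈ {e | (e, q) ∈ S} ∧ ∀ j, j ≤ n → X j w = if hj : j < n + 1 then q ⟨j, hj⟩ else 0}
  have hSq : ∀ q : Fin (n + 1) → ℤ, MeasurableSet {e : ℤ → ℕ → ℝ | (e, q) ∈ S} := fun q =>
    (measurable_id.prodMk measurable_const) hS
  have hCm : ∀ q, MeasurableSet (C q) := fun q => cyl_meas W hW X hX _ (hSq q) n _
  have hU : hist W X n ⁻¹' S = ⋃ q, C q := by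
    ext w
    simp only [Set.mem_preimage, Set.mem_iUnion]
    constructor
    · intro hw
      refine ⟨fun i => X i w, hw, fun j hj => ?_⟩
      rw [dif_pos (by omega)]
    · rintro ⟨q, hq1, hq2⟩
      have : hist W X n w = (W w, q) := by
        unfold hist
        congr 1
        funext i
        have := hq2 i (by omega)
        rw [dif_pos i.2] at this
        exact this
      rw [this]
      exact hq1
  have hdisj : Pairwise (Function.onFun Disjoint C) := by
    intro q q' hqq'
    rw [Function.onFun, Set.disjoint_left]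
    intro w hw hw'
    apply hqq'
    funext i
    have h1 := hw.2 i (by omega)
    have h2 := hw'.2 i (by omega)
    rw [dif_pos i.2] at h1 h2
    rw [← Fin.eta i i.2, ← h1, ← h2]
  rw [hU, Set.iUnion_inter, measure_iUnion hdisj hCm, ← ENNReal.tsum_mul_left,
    measure_iUnion]
  · refine ENNReal.tsum_le_tsum fun q => ?_
    refine h _ _ (hSq q) ?_
    refine Set.Subset.trans ?_ hBG
    rw [hU]
    exact Set.subset_iUnion C q
  · intro q q' hqq'
    exact (hdisj hqq').mono Set.inter_subset_left Set.inter_subset_left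
  · intro q
    exact (hCm q).inter hE

omit m0 in
theorem lt_meas (m : MeasurableSpace Ω) {f g : Ω → ℤ} (hf : Measurable[m] f)
    (hg : Measurable[m] g) : MeasurableSet[m] {w | f w < g w} :=
  measurableSet_lt hf hg

/-- the walk has a strict maximum at time `n` -/
def Rec (X : ℕ → Ω → ℤ) (n : ℕ) : Set Ω := {w | ∀ j, j < n → X j w < X n w}

/-- the walk stays above its position at time `n` -/
def Esc (X : ℕ → Ω → ℤ) (n : ℕ) : Set Ω := {w | ∀ j, n < j → X n w < X j w}

theorem rec_meas (hW : Measurable W) (hX : ∀ n, Measurable (X n)) (n : ℕ) :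
    MeasurableSet[filt W X hW hX n] (Rec X n) := by
  have : Rec X n = ⋂ j, ⋂ (_ : j < n), {w | X j w < X n w} := by
    ext w; simp [Rec]
  rw [this]
  refine MeasurableSet.iInter fun j => MeasurableSet.iInter fun hj => ?_
  exact measurableSet_lt (filt_X hW hX n j hj.le) (filt_X hW hX n n le_rfl)

theorem esc_meas (hX : ∀ n, Measurable (X n)) (n : ℕ) : MeasurableSet (Esc X n) := by
  have : Esc X n = ⋂ j, ⋂ (_ : n < j), {w | X n w < X j w} := by
    ext w; simp [Esc]
  rw [this]
  exact MeasurableSet.iInter fun j => MeasurableSet.iInter fun _ => measurableSet_lt (hX n) (hX j)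

variable (μ : Measure Ω) [IsProbabilityMeasure μ]

theorem survive (hW : Measurable W) (hX : ∀ n, Measurable (X n))
    (h01 : ∀ w x i, W w x i ∈ Set.Icc (0:ℝ) 1) (h : IsERW μ W X) (c : ℝ) (K : ℕ)
    (hgood : ∀ᵐ w ∂μ, W w ∈ GoodEnv c K) (n : ℕ)
    (B : Set Ω) (hB : MeasurableSet[filt W X hW hX n] B) (hBG : B ⊆ Rec X n) :
    ENNReal.ofReal c * μ B ≤ μ (B ∩ Esc X n) := by
  refine reduce μ hW hX _ n (Rec X n) (Esc X n) (esc_meas hX n) ?_ B hB hBG
  intro p A hA hC
  rcases Set.eq_empty_or_nonempty {w | W w ∈ A ∧ ∀ j, j ≤ n → X j w = p j} with h0 | ⟨w0, hw0⟩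
  · rw [h0]; simp
  · have hrec : ∀ j, j < n → p j < p n := by
      intro j hj
      have := hC hw0 j hj
      rw [hw0.2 j hj.le, hw0.2 n le_rfl] at this
      exact this
    have h1 := survive_cyl μ W X hW hX h01 h c K hgood n p hrec A hA
    refine h1.trans (measure_mono ?_)
    rintro w ⟨hw1, hw2⟩
    refine ⟨hw1, fun j hj => ?_⟩
    rw [hw1.2 n le_rfl]
    exact hw2 j hj

/-- almost surely, if the walk is not bounded above, there are arbitrarily late times at which it
has a strict maximum and above which it stays -/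
theorem cut_times (hW : Measurable W) (hX : ∀ n, Measurable (X n))
    (h01 : ∀ w x i, W w x i ∈ Set.Icc (0:ℝ) 1) (h : IsERW μ W X) (c : ℝ) (hc : 0 < c) (K : ℕ)
    (hgood : ∀ᵐ w ∂μ, W w ∈ GoodEnv c K) :
    ∀ᵐ w ∂μ, (∀ b : ℤ, ∃ n, b ≤ X n w) → ∀ n0, ∃ n, n0 ≤ n ∧ w ∈ Rec X n ∧ w ∈ Esc X n := by
  have hz : ∀ n0 : ℕ, μ {w | (∀ b : ℤ, ∃ n, b ≤ X n w) ∧
      ∀ n, n0 ≤ n → ¬ (w ∈ Rec X n ∧ w ∈ Esc X n)} = 0 := by
    intro n0
    have hXm : ∀ j, Measurable[⨆ n, filt W X hW hX n] (X j) := fun j =>
      (filt_X hW hX j j le_rfl).mono (le_iSup (fun n => (filt W X hW hX n)) j) le_rfl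
    refine levy_kill μ (filt W X hW hX) _ ?_ c hc (Rec X) (Esc X) n0 (rec_meas hW hX)
      (fun n B hB hBG => survive μ hW hX h01 h c K hgood n B hB hBG) ?_ (esc_meas hX) ?_
    · have e : {w | (∀ b : ℤ, ∃ n, b ≤ X n w) ∧ ∀ n, n0 ≤ n → ¬ (w ∈ Rec X n ∧ w ∈ Esc X n)} =
          (⋂ b : ℤ, ⋃ n, {w | b ≤ X n w}) ∩ ⋂ n, ⋂ (_ : n0 ≤ n), (Rec X n ∩ Esc X n)ᶜ := by
        ext w
        simp
      rw [e]
      refine MeasurableSet.inter ?_ ?_
      · refine MeasurableSet.iInter fun b => MeasurableSet.iUnion fun n => ?_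
        exact (hXm n) (measurableSet_Ici (a := b))
      · refine MeasurableSet.iInter fun n => MeasurableSet.iInter fun _ => ?_
        refine MeasurableSet.compl (MeasurableSet.inter ?_ ?_)
        · exact (le_iSup (fun n => (filt W X hW hX n)) n) _ (rec_meas hW hX n)
        · have : Esc X n = ⋂ j, ⋂ (_ : n < j), {w | X n w < X j w} := by
            ext w; simp [Esc]
          rw [this]
          exact MeasurableSet.iInter fun j => MeasurableSet.iInter fun _ =>
            lt_meas (⨆ n, filt W X hW hX n) (hXm n) (hXm j)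
    · intro n hn w hw hG hE
      exact hw.2 n hn ⟨hG, hE⟩
    · intro w hw
      rw [frequently_atTop]
      intro a
      -- take the first time at which a value larger than all values up to time `a` is reached
      obtain ⟨b, hb⟩ : ∃ b : ℤ, ∀ j, j ≤ a → X j w < b := by
        refine ⟨(Finset.range (a + 1)).sup' ⟨0, by simp⟩ (fun j => X j w) + 1, fun j hj => ?_⟩
        have hj' : j ∈ Finset.range (a + 1) := Finset.mem_range.mpr (by omega)
        have := Finset.le_sup' (fun j => X j w) hj'
        omega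
      have hex := hw.1 b
      classical
      refine ⟨Nat.find hex, ?_, ?_⟩
      · by_contra hlt
        rw [not_le] at hlt
        have h1 := hb _ hlt.le
        have h2 := Nat.find_spec hex
        omega
      · intro j hj
        have h1 := Nat.find_min hex hj
        have h2 := Nat.find_spec hex
        omega
  have hz' : ∀ᵐ w ∂μ, ∀ n0 : ℕ, ¬ ((∀ b : ℤ, ∃ n, b ≤ X n w) ∧
      ∀ n, n0 ≤ n → ¬ (w ∈ Rec X n ∧ w ∈ Esc X n)) := by
    rw [ae_all_iff]
    intro n0
    exact measure_eq_zero_iff_ae_notMem.mp (hz n0)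
  filter_upwards [hz'] with w hw hb n0
  have := hw n0
  push Not at this
  obtain ⟨n, h1, h2, h3⟩ := this hb
  exact ⟨n, h1, h2, h3⟩

/-- the walk is at `x`, at least for the `(M+1)`-st time -/
def At (X : ℕ → Ω → ℤ) (x : ℤ) (M n : ℕ) : Set Ω :=
  {w | X n w = x ∧ M < ((Finset.range (n + 1)).filter (fun m => X m w = x)).card}

omit m0 in
theorem cnt_meas (m : MeasurableSpace Ω) (x : ℤ) (n : ℕ) (hX : ∀ j, j ≤ n → Measurable[m] (X j)) :
    Measurable[m] (fun w => ((Finset.range (n + 1)).filter (fun k => X k w = x)).card) := by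
  have : (fun w => ((Finset.range (n + 1)).filter (fun k => X k w = x)).card) =
      fun w => ∑ k ∈ Finset.range (n + 1), if X k w = x then 1 else 0 := by
    funext w
    rw [Finset.card_filter]
  rw [this]
  refine Finset.measurable_sum _ fun k hk => ?_
  have hk' : k ≤ n := Nat.lt_succ_iff.mp (Finset.mem_range.mp hk)
  exact Measurable.ite ((hX k hk') (measurableSet_singleton x)) measurable_const measurable_const

theorem at_meas (hW : Measurable W) (hX : ∀ n, Measurable (X n)) (x : ℤ) (M n : ℕ) :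
    MeasurableSet[filt W X hW hX n] (At X x M n) := by
  have h1 : MeasurableSet[filt W X hW hX n] {w | X n w = x} :=
    (filt_X hW hX n n le_rfl) (measurableSet_singleton x)
  have h2 : MeasurableSet[filt W X hW hX n]
      {w | M < ((Finset.range (n + 1)).filter (fun m => X m w = x)).card} :=
    (cnt_meas (X := X) (filt W X hW hX n) x n (fun j hj => filt_X hW hX n j hj))
      (measurableSet_Ioi (a := M))
  exact h1.inter h2

theorem step_right (hW : Measurable W) (hX : ∀ n, Measurable (X n)) (h : IsERW μ W X) (M : ℕ)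
    (hM : ∀ᵐ w ∂μ, ∀ z i, M < i → W w z i = 1 / 2) (x : ℤ) (n : ℕ)
    (B : Set Ω) (hB : MeasurableSet[filt W X hW hX n] B) (hBG : B ⊆ At X x M n) :
    ENNReal.ofReal (1 / 2) * μ B ≤ μ (B ∩ {w | X (n + 1) w = X n w + 1}) := by
  have hEm : MeasurableSet {w | X (n + 1) w = X n w + 1} :=
    measurableSet_eq_fun (hX (n + 1)) ((hX n).add_const 1)
  refine reduce μ hW hX _ n (At X x M n) _ hEm ?_ B hB hBG
  intro p A hA hC
  rcases Set.eq_empty_or_nonempty {w | W w ∈ A ∧ ∀ j, j ≤ n → X j w = p j} with h0 | ⟨w0, hw0⟩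
  · rw [h0]; simp
  · have hat := hC hw0
    have hpn : p n = x := by rw [← hw0.2 n le_rfl]; exact hat.1
    have hvis : M < visits p n := by
      have h2 := hat.2
      have h3 : (Finset.range (n + 1)).filter (fun m => X m w0 = x) =
          (Finset.range (n + 1)).filter (fun m => p m = p n) := by
        refine Finset.filter_congr fun m hm => ?_
        rw [hw0.2 m (Nat.lt_succ_iff.mp (Finset.mem_range.mp hm)), hpn]
      rw [h3] at h2
      exact h2
    let q : ℕ → ℤ := Function.update p (n + 1) (p n + 1)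
    have hq : ∀ m, m ≤ n → q m = p m := fun m hm => Function.update_of_ne (by omega) _ _
    have hq1 : q (n + 1) = p n + 1 := Function.update_self _ _ _
    have hset : {w | W w ∈ A ∧ ∀ j, j ≤ n → X j w = p j} ∩ {w | X (n + 1) w = X n w + 1} =
        {w | W w ∈ A ∧ ∀ j, j ≤ n + 1 → X j w = q j} := by
      ext w
      simp only [Set.mem_inter_iff, Set.mem_ofPred_eq]
      constructor
      · rintro ⟨⟨h1, h2⟩, h3⟩
        refine ⟨h1, fun j hj => ?_⟩
        rcases Nat.lt_or_ge n j with h4 | h4
        · have : j = n + 1 := by omega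
          rw [this, hq1, h3, h2 n le_rfl]
        · rw [hq j h4, h2 j h4]
      · rintro ⟨h1, h2⟩
        refine ⟨⟨h1, fun j hj => ?_⟩, ?_⟩
        · rw [h2 j (by omega), hq j hj]
        · rw [h2 (n + 1) le_rfl, hq1, h2 n (by omega), hq n le_rfl]
    rw [hset, h.law n p A hA, h.law (n + 1) q A hA, hq 0 (Nat.zero_le _)]
    split_ifs with hp0
    · rw [← lintegral_const_mul]
      · refine lintegral_mono_ae ?_
        filter_upwards [ae_restrict_of_ae hM] with w hw
        rw [Finset.prod_range_succ, mul_comm]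
        have e1 : ∏ j ∈ Finset.range n, ENNReal.ofReal (stepProb (W w) q j) =
            ∏ j ∈ Finset.range n, ENNReal.ofReal (stepProb (W w) p j) := by
          refine Finset.prod_congr rfl fun j hj => ?_
          rw [stepProb_congr (W w) p q j
            (fun m hm => hq m (by have := Finset.mem_range.mp hj; omega))]
        have e2 : stepProb (W w) q n = 1 / 2 := by
          unfold stepProb
          rw [if_pos (by rw [hq1, hq n le_rfl]), Pool.H878.ERW.visits_congr p q n hq, hq n le_rfl]
          exact hw _ _ hvis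
        rw [e1, e2]
      · exact Finset.measurable_prod _ (fun j _ => ENNReal.measurable_ofReal.comp
          ((stepProb_meas p j).comp hW))
    · simp

/-- almost surely, if `x` is visited infinitely often, so is `x + 1` -/
theorem io_right (hW : Measurable W) (hX : ∀ n, Measurable (X n)) (h : IsERW μ W X) (M : ℕ)
    (hM : ∀ᵐ w ∂μ, ∀ z i, M < i → W w z i = 1 / 2) (x : ℤ) :
    ∀ᵐ w ∂μ, (∃ᶠ n in atTop, X n w = x) → ∃ᶠ n in atTop, X n w = x + 1 := by
  have hz : ∀ n0 : ℕ, μ {w | (∃ᶠ n in atTop, X n w = x) ∧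
      ∀ n, n0 ≤ n → ¬ (X n w = x ∧ X (n + 1) w = X n w + 1)} = 0 := by
    intro n0
    have hXm : ∀ j, Measurable[⨆ n, filt W X hW hX n] (X j) := fun j =>
      (filt_X hW hX j j le_rfl).mono (le_iSup (fun n => (filt W X hW hX n)) j) le_rfl
    refine levy_kill μ (filt W X hW hX) _ ?_ (1 / 2) (by norm_num) (At X x M)
      (fun n => {w | X (n + 1) w = X n w + 1}) n0 (at_meas hW hX x M)
      (fun n B hB hBG => step_right μ hW hX h M hM x n B hB hBG) ?_ ?_ ?_
    · have e : {w | (∃ᶠ n in atTop, X n w = x) ∧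
          ∀ n, n0 ≤ n → ¬ (X n w = x ∧ X (n + 1) w = X n w + 1)} =
          (⋂ a : ℕ, ⋃ n, ⋃ (_ : a ≤ n), {w | X n w = x}) ∩
            ⋂ n, ⋂ (_ : n0 ≤ n), ({w | X n w = x} ∩ {w | X (n + 1) w = x + 1})ᶜ := by
        ext w
        simp only [Set.mem_ofPred_eq, Set.mem_inter_iff, Set.mem_iInter, Set.mem_iUnion,
          Set.mem_compl_iff, frequently_atTop, exists_prop]
        refine and_congr Iff.rfl (forall_congr' fun n => forall_congr' fun _ => not_congr ?_)
        constructor
        · rintro ⟨h1, h2⟩; exact ⟨h1, by rw [h2, h1]⟩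
        · rintro ⟨h1, h2⟩; exact ⟨h1, by rw [h2, h1]⟩
      rw [e]
      refine MeasurableSet.inter ?_ ?_
      · refine MeasurableSet.iInter fun a => MeasurableSet.iUnion fun n =>
          MeasurableSet.iUnion fun _ => ?_
        exact (hXm n) (measurableSet_singleton x)
      · refine MeasurableSet.iInter fun n => MeasurableSet.iInter fun _ => ?_
        exact (((hXm n) (measurableSet_singleton x)).inter
          ((hXm (n + 1)) (measurableSet_singleton (x + 1)))).compl
    · intro n hn w hw hG hE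
      exact hw.2 n hn ⟨hG.1, hE⟩
    · intro n
      exact measurableSet_eq_fun (hX (n + 1)) ((hX n).add_const 1)
    · intro w hw
      have hio := hw.1
      -- the number of visits becomes larger than `M`
      have hgrow : ∀ k : ℕ, ∃ a, ∀ n, a ≤ n →
          k ≤ ((Finset.range (n + 1)).filter (fun m => X m w = x)).card := by
        intro k
        induction k with
        | zero => exact ⟨0, fun n _ => Nat.zero_le _⟩
        | succ k ih =>
          obtain ⟨a, ha⟩ := ih
          obtain ⟨b, hb1, hb2⟩ := (frequently_atTop.mp hio) (a + 1)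
          refine ⟨b, fun n hn => ?_⟩
          have h1 := ha a le_rfl
          have h2 : (Finset.range (a + 1)).filter (fun m => X m w = x) ⊂
              (Finset.range (n + 1)).filter (fun m => X m w = x) := by
            rw [Finset.ssubset_iff_of_subset]
            · refine ⟨b, ?_, ?_⟩
              · simp only [Finset.mem_filter, Finset.mem_range]
                exact ⟨by omega, hb2⟩
              · simp only [Finset.mem_filter, Finset.mem_range, not_and]
                intro h; omega
            · intro m hm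
              simp only [Finset.mem_filter, Finset.mem_range] at hm ⊢
              exact ⟨by omega, hm.2⟩
          have := Finset.card_lt_card h2
          omega
      obtain ⟨a, ha⟩ := hgrow (M + 1)
      refine (hio.and_eventually (eventually_ge_atTop a)).mono ?_
      rintro n ⟨h1, h2⟩
      exact ⟨h1, ha n h2⟩
  have hz' : ∀ᵐ w ∂μ, ∀ n0 : ℕ, ¬ ((∃ᶠ n in atTop, X n w = x) ∧
      ∀ n, n0 ≤ n → ¬ (X n w = x ∧ X (n + 1) w = X n w + 1)) := by
    rw [ae_all_iff]
    intro n0
    exact measure_eq_zero_iff_ae_notMem.mp (hz n0)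
  filter_upwards [hz'] with w hw hio
  rw [frequently_atTop]
  intro a
  have := hw a
  push Not at this
  obtain ⟨n, h1, h2, h3⟩ := this hio
  exact ⟨n + 1, by omega, by rw [h3, h2]⟩

/-- transience -/
theorem transient (hW : Measurable W) (hX : ∀ n, Measurable (X n))
    (h01 : ∀ w x i, W w x i ∈ Set.Icc (0:ℝ) 1) (h : IsERW μ W X) (c : ℝ) (hc : 0 < c) (K : ℕ)
    (hgood : ∀ᵐ w ∂μ, W w ∈ GoodEnv c K) (M : ℕ)
    (hM : ∀ᵐ w ∂μ, ∀ z i, M < i → W w z i = 1 / 2) :
    ∀ᵐ w ∂μ, Tendsto (fun n => |X n w|) atTop atTop := by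
  have h2 : ∀ᵐ w ∂μ, ∀ x, (∃ᶠ n in atTop, X n w = x) → ∃ᶠ n in atTop, X n w = x + 1 := by
    rw [ae_all_iff]
    exact fun x => io_right μ hW hX h M hM x
  filter_upwards [cut_times μ hW hX h01 h c hc K hgood, h2] with w h1 h2
  by_cases hb : ∀ b : ℤ, ∃ n, b ≤ X n w
  · rw [tendsto_atTop]
    intro b
    obtain ⟨n1, hn1⟩ := hb b
    obtain ⟨n, hn2, hn3, hn4⟩ := h1 hb (n1 + 1)
    have h3 : b ≤ X n w := by
      have := hn3 n1 (by omega)
      omega
    filter_upwards [eventually_gt_atTop n] with j hj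
    have := hn4 j hj
    exact (by omega : b ≤ X j w).trans (le_abs_self _)
  · push Not at hb
    obtain ⟨b, hb⟩ := hb
    by_contra hnt
    rw [tendsto_atTop] at hnt
    push Not at hnt
    obtain ⟨C, hC⟩ := hnt
    -- some value in `(-C, C)` is taken infinitely often
    have hex : ∃ x : ℤ, ∃ᶠ n in atTop, X n w = x := by
      by_contra hno
      push Not at hno
      have h3 : ∀ᶠ n in atTop, ∀ x ∈ Finset.Ioo (-C) C, X n w ≠ x := by
        rw [eventually_all_finset]
        intro x _
        exact hno x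
      obtain ⟨n, hn1, hn2⟩ := (hC.and_eventually h3).exists
      rw [abs_lt] at hn1
      exact hn2 (X n w) (Finset.mem_Ioo.mpr hn1) rfl
    obtain ⟨x, hx⟩ := hex
    have hall : ∀ k : ℕ, ∃ᶠ n in atTop, X n w = x + k := by
      intro k
      induction k with
      | zero => simpa using hx
      | succ k ih =>
        have := h2 _ ih
        push_cast
        rw [← add_assoc]
        exact this
    obtain ⟨k, hk⟩ : ∃ k : ℕ, b ≤ x + k := ⟨(b - x).toNat, by omega⟩
    obtain ⟨n, hn⟩ := (hall k).exists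
    have := hb n
    omega

end walk

end Pool.Agent.W846.ERW
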